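import Pool.Agent.ASC.Stmts

/-!
# ACH2: the charts and the sheets
-/

set_option autoImplicit false

open Polynomial

namespace ASC

open CUB

namespace ACH2

variable {k : Type} [Field k] {R R' : Type} [CommRing R] [CommRing R'] [Algebra k R]
  [Algebra k R'] {p : ℕ} [Fact p.Prime] [CharP k p]

theorem comm {G f v : R} (hv : v ^ p - v = G) (ψ : R →ₐ[k] R') (hf : ψ f = 0)
    (h0 : (ψ v) ^ p - ψ v = ψ G) :
    (muH (k := k) (-1 : R'ˣ)).comp (shp ψ hf (ψ v) h0) =
      (mapX ψ).comp (chp (k := k) (f := f) v hv) := by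
  have hu' : ((-1 : R'ˣ) : R') = -1 := by simp
  have hp : p - 1 ≠ 0 := by
    have h := (Fact.out : p.Prime).one_lt
    omega
  apply P_ext
  · intro P
    rw [AlgHom.comp_apply, AlgHom.comp_apply, shp_algebraMap, chp_algebraMap]
    have h1 := evs_unique ((CC k R').comp ψ) (- X)
      ((muH (k := k) (-1 : R'ˣ)).comp (mapX ψ))
      (fun r => by
        rw [AlgHom.comp_apply]
        have : mapX ψ (C r) = C (ψ r) := Polynomial.map_C _
        rw [this]
        exact mu_C _ _)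
      (by
        rw [AlgHom.comp_apply]
        have : mapX ψ X = X := Polynomial.map_X _
        rw [this]
        refine (mu_X _).trans ?_
        rw [hu', C_neg, C_1, neg_mul, one_mul])
    have h2 := evs_unique ((CC k R').comp ψ) (- X)
      ((mapX ψ).comp (evs (CC k R) (X ^ p * C (f ^ (p - 1)) - X)))
      (fun r => by
        rw [AlgHom.comp_apply, evs_C, CC_apply]
        exact Polynomial.map_C _)
      (by
        rw [AlgHom.comp_apply, evs_X]
        have h3 : mapX ψ (X ^ p * C (f ^ (p - 1)) - X) =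
            X ^ p * C ((ψ f) ^ (p - 1)) - X := by
          simp [mapX]
        rw [h3, hf, zero_pow hp, C_0, mul_zero, zero_sub])
    have h4 := AlgHom.congr_fun (h1.trans h2.symm) P
    exact h4
  · rw [AlgHom.comp_apply, AlgHom.comp_apply, shp_yp, chp_yp]
    have h3 : mapX ψ (C v + X * C f) = C (ψ v) + X * C (ψ f) := by
      simp [mapX]
    rw [h3, hf, C_0, mul_zero, add_zero]
    exact mu_C _ _

theorem chp_f {G f v : R} (hv : v ^ p - v = G) :
    chp (k := k) (f := f) v hv (algebraMap R[X] (YP p G f) (C f)) = C f := by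
  rw [chp_algebraMap, evs_C, CC_apply]

omit [Fact p.Prime] [CharP k p] in
theorem shp_f {G f : R} (ψ : R →ₐ[k] R') (hf : ψ f = 0) (w : R') (hw : w ^ p - w = ψ G) :
    shp ψ hf w hw (algebraMap R[X] (YP p G f) (C f)) = 0 := by
  rw [shp_algebraMap]
  have : mapX ψ (C f) = C (ψ f) := Polynomial.map_C _
  rw [this, hf, C_0]

theorem mem_map_eq {A B : Type} [CommRing A] [CommRing B] (φ : A →+* B) (I : Ideal A) (a : A)
    (b : B) (ha : a ∈ I) (h : φ a = b) : b ∈ I.map φ := by
  subst h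
  exact Ideal.mem_map_of_mem φ ha

theorem ker {G f v : R} (hv : v ^ p - v = G) (ψ : R →ₐ[k] R') (hf : ψ f = 0)
    (hk : RingHom.ker ψ.toRingHom = Ideal.span {f}) (h0 : (ψ v) ^ p - ψ v = ψ G) :
    RingHom.ker (mapX ψ).toRingHom ≤
      (RingHom.ker (shp ψ hf (ψ v) h0).toRingHom).map
        (chp (k := k) (f := f) v hv).toRingHom := by
  have h1 : RingHom.ker (mapX ψ).toRingHom = Ideal.span {C f} := by
    have h2 : RingHom.ker (mapX ψ).toRingHom = RingHom.ker (Polynomial.mapRingHom ψ.toRingHom) :=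
      rfl
    rw [h2, Polynomial.ker_mapRingHom, hk, Ideal.map_span, Set.image_singleton]
  rw [h1, Ideal.span_singleton_le_iff_mem]
  have h3 : (chp (k := k) (f := f) v hv).toRingHom (algebraMap R[X] (YP p G f) (C f)) = C f :=
    chp_f hv
  have h4 : algebraMap R[X] (YP p G f) (C f) ∈
      RingHom.ker (shp ψ hf (ψ v) h0).toRingHom := by
    rw [RingHom.mem_ker]
    exact shp_f ψ hf (ψ v) h0
  exact mem_map_eq _ _ _ _ h4 h3

theorem zero {G f v : R} (hv : v ^ p - v = G)
    (ψ : R →ₐ[k] R') (hψ : Function.Surjective ψ) (hf : ψ f = 0)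
    (hk : RingHom.ker ψ.toRingHom = Ideal.span {f})
    (w' : R') (hw : w' ^ p - w' = ψ G) (hu : IsUnit (w' - ψ v)) (E : Type) [Field E] (n : ℕ)
    (c₁ : RP k R'[X] n →₀ E) :
    IsPull k E 0 (chp (k := k) (f := f) v hv)
      (push E (shp ψ hf w' hw) (shp_surjective ψ hψ hf _ hw) c₁) 0 := by
  intro P
  refine ⟨fun h => ?_, fun _ => rfl⟩
  symm
  refine Finsupp.mapDomain_of_notMem_range _ _ ?_
  rintro ⟨P', hP'⟩
  have h2 : (pushP (shp ψ hf w' hw) (shp_surjective ψ hψ hf _ hw) P').1.asIdeal =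
      P.1.asIdeal.comap (chp (k := k) (f := f) v hv).toRingHom := by
    rw [hP']
    rfl
  have h3 : ∀ b : YP p G f, shp ψ hf w' hw b = 0 →
      chp (k := k) (f := f) v hv b ∈ P.1.asIdeal := by
    intro b hb
    have h4 : b ∈ (pushP (shp ψ hf w' hw) (shp_surjective ψ hψ hf _ hw) P').1.asIdeal := by
      change shp ψ hf w' hw b ∈ P'.1.asIdeal
      rw [hb]
      exact P'.1.asIdeal.zero_mem
    rw [h2] at h4
    exact h4
  have h5 := h3 _ (shp_f ψ hf w' hw)
  rw [chp_f] at h5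
  obtain ⟨w, hw1⟩ := hψ w'
  have h6 := h3 (yp p (C G + X * C f) - algebraMap R[X] (YP p G f) (C w)) (by
    rw [map_sub, shp_yp, shp_algebraMap]
    have : mapX ψ (C w) = C (ψ w) := Polynomial.map_C _
    rw [this, hw1, sub_self])
  rw [map_sub, chp_yp, chp_algebraMap, evs_C, CC_apply] at h6
  obtain ⟨z', hz'⟩ := hu.exists_right_inv
  obtain ⟨z, rfl⟩ := hψ z'
  have h7 : (w - v) * z - 1 ∈ RingHom.ker ψ.toRingHom := by
    rw [RingHom.mem_ker]
    change ψ ((w - v) * z - 1) = 0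
    rw [map_sub, map_mul, map_sub, map_one, hw1, hz', sub_self]
  rw [hk, Ideal.mem_span_singleton'] at h7
  obtain ⟨t, ht⟩ := h7
  have h8 : (1 : R[X]) = - (C v + X * C f - C w) * C z + (X * C z - C t) * C f := by
    have h9 : (1 : R) = (w - v) * z - t * f := by rw [ht]; ring
    have h10 : (1 : R[X]) = C ((w - v) * z - t * f) := by rw [← h9, C_1]
    rw [h10]
    simp only [map_sub, map_mul]
    ring
  apply P.1.2.ne_top
  rw [Ideal.eq_top_iff_one, h8]
  exact P.1.asIdeal.add_mem (P.1.asIdeal.mul_mem_right _ (neg_mem h6))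
    (P.1.asIdeal.mul_mem_left _ h5)

end ACH2

open ACH2 in
theorem t_ACH2 : M_ACH2 := by
  intro hB _ k R R' E _ _ _ _ _ _ _ p _ _ G f v hv ψ hψ hf hk n
  refine ⟨fun h0 c₀ d hd => ?_, fun w' hw c₁ hu => zero hv ψ hψ hf hk w' hw hu E n c₁⟩
  exact hB k (YP p G f) R[X] R'[X] R'[X] E 0 n (chp (k := k) (f := f) v hv)
    (muH (-1)) (shp ψ hf (ψ v) h0) (mapX ψ)
    (shp_surjective ψ hψ hf _ h0) (mapX_surjective ψ hψ) (comm hv ψ hf h0)
    (ker hv ψ hf hk h0) c₀ d hd

end ASC
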