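import Pool.Agent.ASC.Stmts
import Pool.Agent.CUB.C_CHI

/-!
# ASC, module ACHI: the chart `chp` is a local isomorphism
-/

set_option autoImplicit false

open Polynomial

namespace ASC

open CUB

namespace ACHI

open CUB.CHI (Im)

variable {k R : Type} [Field k] [CommRing R] [Algebra k R] {p : ℕ} [Fact p.Prime] [CharP k p]
  {G f v : R}

include k in
/-- The equation of the cover. -/
lemma rel (hv : v ^ p - v = G) :
    (yp p (C G + X * C f) - algebraMap R[X] (YP p G f) (C v)) ^ p -
      (yp p (C G + X * C f) - algebraMap R[X] (YP p G f) (C v)) =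
    algebraMap R[X] (YP p G f) X * algebraMap R[X] (YP p G f) (C f) := by
  have h := yp_eq (p := p) (C G + X * C f)
  rw [← hv] at h ⊢
  rw [sub_pow_p k p]
  simp only [map_sub, map_add, map_mul, map_pow] at h ⊢
  linear_combination h

/-- Injectivity of the localisation of the chart from a solution `s`. -/
lemma inj (hv : v ^ p - v = G) (b : YP p G f) (s : Localization.Away b)
    (h1 : algebraMap (YP p G f) (Localization.Away b) (algebraMap R[X] (YP p G f) (C v)) +
      s * algebraMap (YP p G f) (Localization.Away b) (algebraMap R[X] (YP p G f) (C f)) =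
      algebraMap (YP p G f) (Localization.Away b) (yp p (C G + X * C f)))
    (h2 : s ^ p * algebraMap (YP p G f) (Localization.Away b)
        (algebraMap R[X] (YP p G f) (C f)) ^ (p - 1) - s =
      algebraMap (YP p G f) (Localization.Away b) (algebraMap R[X] (YP p G f) X)) (a : YP p G f)
    (ha : chp (k := k) (f := f) v hv a = 0) : ∃ n, b ^ n * a = 0 := by
  let ι : YP p G f →ₐ[k] Localization.Away b := IsScalarTower.toAlgHom k _ _
  let θ : R[X] →ₐ[k] Localization.Away b :=
    evs (ι.comp ((Pbase k p (C G + X * C f)).comp (CC k R))) s
  have hθC : ∀ r : R, θ (C r) = ι (algebraMap R[X] (YP p G f) (C r)) := fun r => evs_C _ _ r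
  have hθX : θ X = s := evs_X _ _
  have hcomp : θ.comp (chp (k := k) (f := f) v hv) = ι := by
    apply P_ext
    · intro t
      rw [AlgHom.comp_apply, chp_algebraMap]
      have h3 := evs_unique (ι.comp ((Pbase k p (C G + X * C f)).comp (CC k R)))
        (ι (algebraMap R[X] (YP p G f) X))
        (θ.comp (evs (CC k R) (X ^ p * C (f ^ (p - 1)) - X))) (fun r => by
          rw [AlgHom.comp_apply, evs_C, CC_apply, hθC]
          rfl) (by
          rw [AlgHom.comp_apply, evs_X, map_sub, map_mul, map_pow, C_pow, map_pow, hθX, hθC]
          exact h2)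
      have h4 := evs_unique (ι.comp ((Pbase k p (C G + X * C f)).comp (CC k R)))
        (ι (algebraMap R[X] (YP p G f) X))
        (ι.comp (Pbase k p (C G + X * C f))) (fun r => rfl) rfl
      have h5 := h3.trans h4.symm
      exact AlgHom.congr_fun h5 t
    · rw [AlgHom.comp_apply, chp_yp, map_add, map_mul, hθX, hθC, hθC]
      exact h1
  have h6 : ι a = 0 := by
    rw [← hcomp, AlgHom.comp_apply, ha, map_zero]
  have h7 : algebraMap (YP p G f) (Localization.Away b) a =
      algebraMap (YP p G f) (Localization.Away b) 0 := by
    rw [map_zero]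
    exact h6
  rw [IsLocalization.eq_iff_exists (Submonoid.powers b)] at h7
  obtain ⟨⟨_, n, rfl⟩, hn⟩ := h7
  exact ⟨n, by simpa using hn⟩

/-- Surjectivity of the localisation of the chart. -/
lemma surj (hv : v ^ p - v = G) (b : YP p G f)
    (hX : Im (chp (k := k) (f := f) v hv).toRingHom b X) (x : R[X]) :
    Im (chp (k := k) (f := f) v hv).toRingHom b x := by
  have hC : ∀ r : R, Im (chp (k := k) (f := f) v hv).toRingHom b (C r) := by
    intro r
    have h := Im.of (φ := (chp (k := k) (f := f) v hv).toRingHom) (r := b)
      (algebraMap R[X] (YP p G f) (C r))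
    have h2 : (chp (k := k) (f := f) v hv).toRingHom (algebraMap R[X] (YP p G f) (C r)) = C r := by
      change chp (k := k) (f := f) v hv (algebraMap R[X] (YP p G f) (C r)) = C r
      rw [chp_algebraMap, evs_C, CC_apply]
    rwa [h2] at h
  induction x using Polynomial.induction_on with
  | C a => exact hC a
  | add p q hp hq => exact hp.add hq
  | monomial n a ih =>
    rw [pow_succ, ← mul_assoc]
    exact ih.mul hX

end ACHI

/-- ACHI. -/
theorem t_ACHI : M_ACHI := by
  intro hGLI k R _ _ _ _ p _ _ G f v hv
  apply hGLI
  intro P
  have hp : p - 1 + 1 = p := Nat.sub_add_cancel (Fact.out : p.Prime).one_lt.le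
  have hp1 : p - 1 ≠ 0 := by
    have := (Fact.out : p.Prime).two_le
    omega
  have hyv : chp (k := k) (f := f) v hv
      (yp p (C G + X * C f) - algebraMap R[X] (YP p G f) (C v)) = X * C f := by
    rw [map_sub, chp_yp, chp_algebraMap, evs_C, CC_apply]
    ring
  have hrel := ACHI.rel (k := k) (f := f) hv
  by_cases hf : (C f : R[X]) ∈ P.asIdeal
  · -- `b = (y - v) ^ (p - 1) - 1`
    let b : YP p G f := (yp p (C G + X * C f) - algebraMap R[X] (YP p G f) (C v)) ^ (p - 1) - 1
    have hb : chp (k := k) (f := f) v hv b = (X * C f) ^ (p - 1) - 1 := by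
      change chp (k := k) (f := f) v hv
        ((yp p (C G + X * C f) - algebraMap R[X] (YP p G f) (C v)) ^ (p - 1) - 1) = _
      rw [map_sub, map_pow, hyv, map_one]
    refine ⟨b, ?_, ?_, ?_⟩
    · intro hmem
      rw [hb] at hmem
      have h1 : ((X * C f) ^ (p - 1) : R[X]) ∈ P.asIdeal :=
        P.asIdeal.pow_mem_of_mem (P.asIdeal.mul_mem_left X hf) _ (Nat.pos_of_ne_zero hp1)
      have h2 : (1 : R[X]) ∈ P.asIdeal := by
        have := P.asIdeal.sub_mem h1 hmem
        rwa [sub_sub_cancel] at this
      exact P.isPrime.ne_top (Ideal.eq_top_of_isUnit_mem _ h2 isUnit_one)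
    · rw [Localization.awayMap_injective_iff]
      intro a ha
      obtain ⟨u, hu⟩ : IsUnit (algebraMap (YP p G f) (Localization.Away b) b) :=
        IsLocalization.Away.algebraMap_isUnit b
      have hub : (↑u⁻¹ : Localization.Away b) * algebraMap (YP p G f) (Localization.Away b) b = 1 := by
        rw [← hu]
        exact u.inv_mul
      have hbe : algebraMap (YP p G f) (Localization.Away b) b =
          (algebraMap (YP p G f) (Localization.Away b) (yp p (C G + X * C f)) -
          algebraMap (YP p G f) (Localization.Away b)
            (algebraMap R[X] (YP p G f) (C v))) ^ (p - 1) - 1 := by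
        rw [← map_sub, ← map_pow, ← map_one (algebraMap (YP p G f) (Localization.Away b)),
          ← map_sub]
      have hrel2 := congrArg (algebraMap (YP p G f) (Localization.Away b)) hrel
      rw [map_mul, map_sub, map_pow, map_sub] at hrel2
      rw [hbe] at hub
      refine ACHI.inj (k := k) hv b
        (↑u⁻¹ * algebraMap (YP p G f) (Localization.Away b) (algebraMap R[X] (YP p G f) X))
        ?_ ?_ a ha
      · generalize (↑u⁻¹ : Localization.Away b) = t at *
        generalize algebraMap (YP p G f) (Localization.Away b) (yp p (C G + X * C f)) = Y' at *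
        generalize algebraMap (YP p G f) (Localization.Away b)
          (algebraMap R[X] (YP p G f) (C v)) = V' at *
        generalize algebraMap (YP p G f) (Localization.Away b)
          (algebraMap R[X] (YP p G f) (C f)) = F' at *
        generalize algebraMap (YP p G f) (Localization.Away b)
          (algebraMap R[X] (YP p G f) X) = X' at *
        have e : (Y' - V') ^ p = (Y' - V') ^ (p - 1) * (Y' - V') := by rw [← pow_succ, hp]
        rw [e] at hrel2
        linear_combination (-t) * hrel2 + (Y' - V') * hub
      · generalize (↑u⁻¹ : Localization.Away b) = t at *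
        generalize algebraMap (YP p G f) (Localization.Away b) (yp p (C G + X * C f)) = Y' at *
        generalize algebraMap (YP p G f) (Localization.Away b)
          (algebraMap R[X] (YP p G f) (C v)) = V' at *
        generalize algebraMap (YP p G f) (Localization.Away b)
          (algebraMap R[X] (YP p G f) (C f)) = F' at *
        generalize algebraMap (YP p G f) (Localization.Away b)
          (algebraMap R[X] (YP p G f) X) = X' at *
        have e : (Y' - V') ^ p = (Y' - V') ^ (p - 1) * (Y' - V') := by rw [← pow_succ, hp]
        rw [e] at hrel2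
        have h1 : t * X' * F' = Y' - V' := by
          linear_combination (-t) * hrel2 + (Y' - V') * hub
        have h2 : (t * X') ^ p * F' ^ (p - 1) = (t * X') * (t * X' * F') ^ (p - 1) := by
          have h3 : (t * X') ^ p = (t * X') ^ (p - 1) * (t * X') := by rw [← pow_succ, hp]
          rw [h3, mul_pow (t * X') F']
          ring
        rw [h2, h1]
        linear_combination X' * hub
    · rw [Localization.awayMap_surjective_iff]
      intro x
      refine ACHI.surj (k := k) hv b ⟨algebraMap R[X] (YP p G f) X, 1, ?_⟩ x
      change chp (k := k) (f := f) v hv (algebraMap R[X] (YP p G f) X) =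
        chp (k := k) (f := f) v hv b ^ 1 * X
      rw [chp_algebraMap, evs_X, hb, mul_pow, C_pow]
      have h3 : (X : R[X]) ^ p = X ^ (p - 1) * X := by rw [← pow_succ, hp]
      rw [h3]
      ring
  · refine ⟨algebraMap R[X] (YP p G f) (C f), ?_, ?_, ?_⟩
    · rw [chp_algebraMap, evs_C, CC_apply]
      exact hf
    · rw [Localization.awayMap_injective_iff]
      intro a ha
      obtain ⟨t, hub⟩ : ∃ t : Localization.Away (algebraMap R[X] (YP p G f) (C f)),
          t * algebraMap (YP p G f) (Localization.Away (algebraMap R[X] (YP p G f) (C f)))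
            (algebraMap R[X] (YP p G f) (C f)) = 1 := by
        obtain ⟨u, hu⟩ : IsUnit (algebraMap (YP p G f)
            (Localization.Away (algebraMap R[X] (YP p G f) (C f)))
            (algebraMap R[X] (YP p G f) (C f))) :=
          IsLocalization.Away.algebraMap_isUnit _
        refine ⟨↑u⁻¹, ?_⟩
        rw [← hu]
        exact u.inv_mul
      have hrel2 := congrArg (algebraMap (YP p G f)
        (Localization.Away (algebraMap R[X] (YP p G f) (C f)))) hrel
      rw [map_mul, map_sub, map_pow, map_sub] at hrel2
      refine ACHI.inj (k := k) hv _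
        (t * (algebraMap (YP p G f) (Localization.Away (algebraMap R[X] (YP p G f) (C f)))
          (yp p (C G + X * C f)) -
          algebraMap (YP p G f) (Localization.Away (algebraMap R[X] (YP p G f) (C f)))
            (algebraMap R[X] (YP p G f) (C v)))) ?_ ?_ a ha
      · linear_combination (algebraMap (YP p G f)
          (Localization.Away (algebraMap R[X] (YP p G f) (C f))) (yp p (C G + X * C f)) -
          algebraMap (YP p G f) (Localization.Away (algebraMap R[X] (YP p G f) (C f)))
            (algebraMap R[X] (YP p G f) (C v))) * hub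
      · generalize algebraMap (YP p G f) (Localization.Away (algebraMap R[X] (YP p G f) (C f)))
          (yp p (C G + X * C f)) = Y' at *
        generalize algebraMap (YP p G f) (Localization.Away (algebraMap R[X] (YP p G f) (C f)))
          (algebraMap R[X] (YP p G f) (C v)) = V' at *
        generalize algebraMap (YP p G f) (Localization.Away (algebraMap R[X] (YP p G f) (C f)))
          (algebraMap R[X] (YP p G f) (C f)) = F' at *
        generalize algebraMap (YP p G f) (Localization.Away (algebraMap R[X] (YP p G f) (C f)))
          (algebraMap R[X] (YP p G f) X) = X' at *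
        have h2 : (t * (Y' - V')) ^ p * F' ^ (p - 1) = t * (t * F') ^ (p - 1) * (Y' - V') ^ p := by
          have h3 : t ^ p = t ^ (p - 1) * t := by rw [← pow_succ, hp]
          rw [mul_pow t (Y' - V'), h3, mul_pow t F']
          ring
        rw [h2, hub, one_pow, mul_one]
        linear_combination t * hrel2 + X' * hub
    · rw [Localization.awayMap_surjective_iff]
      intro x
      refine ACHI.surj (k := k) hv _
        ⟨yp p (C G + X * C f) - algebraMap R[X] (YP p G f) (C v), 1, ?_⟩ x
      change chp (k := k) (f := f) v hv
        (yp p (C G + X * C f) - algebraMap R[X] (YP p G f) (C v)) =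
        chp (k := k) (f := f) v hv (algebraMap R[X] (YP p G f) (C f)) ^ 1 * X
      rw [hyv, chp_algebraMap, evs_C, CC_apply]
      ring

end ASC
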