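import Pool.Agent.ASC.Stmts

/-!
# ASC, module ACHV: the chart and a point outside `f = 0`
-/

set_option autoImplicit false

open Polynomial

namespace ASC

open CUB

namespace ACHV

variable {k R : Type} [Field k] [CommRing R] [Algebra k R] {p : ℕ} [Fact p.Prime] [CharP k p]
  {G f : R}

/-- every polynomial is in the image of the chart after multiplication by a power of `f` -/
lemma exists_lift (v : R) (hv : v ^ p - v = G) (g : R[X]) :
    ∃ (N : ℕ) (g' : YP p G f), chp (k := k) (f := f) v hv g' = C f ^ N * g := by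
  have hC : ∀ r : R, chp (k := k) (f := f) v hv (algebraMap R[X] (YP p G f) (C r)) = C r := by
    intro r
    rw [chp_algebraMap, evs_C, CC_apply]
  induction g using Polynomial.induction_on with
  | C a => exact ⟨0, algebraMap R[X] (YP p G f) (C a), by rw [hC, pow_zero, one_mul]⟩
  | add P Q hp hq =>
    obtain ⟨N, g₁, h1⟩ := hp
    obtain ⟨M, g₂, h2⟩ := hq
    refine ⟨N + M, algebraMap R[X] (YP p G f) (C f) ^ M * g₁ +
      algebraMap R[X] (YP p G f) (C f) ^ N * g₂, ?_⟩
    rw [map_add, map_mul, map_mul, map_pow, map_pow, hC, h1, h2]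
    ring
  | monomial n a h =>
    obtain ⟨N, g₁, h1⟩ := h
    refine ⟨N + 1, g₁ * (yp p (C G + X * C f) - algebraMap R[X] (YP p G f) (C v)), ?_⟩
    rw [map_mul, map_sub, hC, chp_yp, h1]
    ring

end ACHV

open ACHV

theorem t_ACHV : S_ACHV := by
  intro k R K _ _ _ _ _ p _ _ G f v hv κ θ hθ hf
  have hp : p - 1 + 1 = p := Nat.sub_add_cancel (Fact.out : p.Prime).one_lt.le
  have hx : (κ (yp p (C G + X * C f))) ^ p - κ (yp p (C G + X * C f)) =
      θ G + κ (algebraMap R[X] (YP p G f) X) * θ f := by
    have h1 := yp_eq (p := p) (C G + X * C f : R[X])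
    have h2 := congrArg κ h1
    rw [map_sub, map_sub, map_pow, map_zero, map_add (algebraMap R[X] (YP p G f)),
      map_mul (algebraMap R[X] (YP p G f)), map_add κ, map_mul κ, ← hθ, ← hθ] at h2
    exact sub_eq_zero.mp h2
  have hG : θ G = θ v ^ p - θ v := by rw [← hv, map_sub, map_pow]
  generalize hs : (κ (yp p (C G + X * C f)) - θ v) / θ f = s
  have hsf : s * θ f = κ (yp p (C G + X * C f)) - θ v := by
    rw [← hs, div_mul_cancel₀ _ hf]
  have hpow : (s * θ f) ^ p = κ (yp p (C G + X * C f)) ^ p - θ v ^ p := by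
    rw [hsf, sub_pow_p k p]
  have key : (evs θ s).comp (chp (k := k) (f := f) v hv) = κ := by
    apply P_ext
    · intro P
      rw [AlgHom.comp_apply, chp_algebraMap]
      have e1 : ((evs θ s).comp (evs (CC k R) (X ^ p * C (f ^ (p - 1)) - X))) =
          evs θ (κ (algebraMap R[X] (YP p G f) X)) := by
        apply evs_unique
        · intro r
          rw [AlgHom.comp_apply, evs_C, CC_apply, evs_C]
        · rw [AlgHom.comp_apply, evs_X, map_sub, map_mul, map_pow, evs_X, evs_C, map_pow θ]
          apply mul_right_cancel₀ hf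
          have h3 : (s ^ p * θ f ^ (p - 1) - s) * θ f = (s * θ f) ^ p - s * θ f := by
            rw [sub_mul, mul_assoc, ← pow_succ, hp, mul_pow]
          rw [h3, hpow, hsf]
          rw [hG] at hx
          linear_combination hx
      have e2 : κ.comp (Pbase k p (C G + X * C f)) =
          evs θ (κ (algebraMap R[X] (YP p G f) X)) := by
        apply evs_unique
        · intro r
          exact (hθ r).symm
        · rfl
      have e3 := DFunLike.congr_fun (e1.trans e2.symm) P
      exact e3
    · rw [AlgHom.comp_apply, chp_yp, map_add, map_mul, evs_C, evs_X, evs_C, hsf]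
      ring
  refine ⟨key, ?_⟩
  intro P hP hPk
  have hCf : (C f : R[X]) ∉ P := by
    intro h
    have h1 : algebraMap R[X] (YP p G f) (C f) ∈
        P.comap (chp (k := k) (f := f) v hv).toRingHom := by
      have h2 : chp (k := k) (f := f) v hv (algebraMap R[X] (YP p G f) (C f)) = C f := by
        rw [chp_algebraMap, evs_C, CC_apply]
      change chp (k := k) (f := f) v hv (algebraMap R[X] (YP p G f) (C f)) ∈ P
      rw [h2]
      exact h
    rw [hPk] at h1
    have h3 : κ (algebraMap R[X] (YP p G f) (C f)) = 0 := h1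
    rw [← hθ] at h3
    exact hf h3
  ext g
  obtain ⟨N, g', h1⟩ := exists_lift (k := k) (f := f) v hv g
  have h2 : g ∈ P ↔ C f ^ N * g ∈ P := by
    constructor
    · intro h
      exact P.mul_mem_left _ h
    · intro h
      rcases hP.mem_or_mem h with h | h
      · exact absurd (hP.mem_of_pow_mem _ h) hCf
      · exact h
  have h3 : C f ^ N * g ∈ P ↔ g' ∈ RingHom.ker κ.toRingHom := by
    rw [← hPk, ← h1]
    rfl
  have h4 : g' ∈ RingHom.ker κ.toRingHom ↔ κ g' = 0 := Iff.rfl
  have h5 : g ∈ RingHom.ker (evs θ s).toRingHom ↔ evs θ s g = 0 := Iff.rfl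
  have h6 : κ g' = θ f ^ N * evs θ s g := by
    have h7 := DFunLike.congr_fun key g'
    rw [AlgHom.comp_apply, h1, map_mul, map_pow, evs_C] at h7
    exact h7.symm
  rw [h2, h3, h4, h5, h6, mul_eq_zero, or_iff_right (pow_ne_zero N hf)]

end ASC
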