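import Pool.Agent.ASC.Stmts

/-!
# ASC, module ADEL: a rationally trivial sum of cycles on the sheets
-/

set_option autoImplicit false

open Polynomial

namespace ASC

open CUB

namespace ADEL

lemma push_shp_congr {k R R' : Type} (E : Type) [Field k] [CommRing R] [CommRing R'] [Algebra k R]
    [Algebra k R'] [Field E] {p : ℕ} [Fact p.Prime] [CharP k p] {G f : R} (ψ : R →ₐ[k] R')
    (hψ : Function.Surjective ψ) (hf : ψ f = 0) {v w : R'} (hvw : v = w)
    (hv : v ^ p - v = ψ G) (hw : w ^ p - w = ψ G) {n : ℕ} (c : RP k R'[X] n →₀ E) :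
    push E (shp ψ hf v hv) (shp_surjective ψ hψ hf _ hv) c =
      push E (shp ψ hf w hw) (shp_surjective ψ hψ hf _ hw) c := by
  subst hvw
  rfl

/-- pull-backs of sums -/
lemma pull_sum (h : S_PLIN) {k A B E : Type} [Field k] [CommRing A] [CommRing B] [Algebra k A]
    [Algebra k B] [Field E] {n : ℕ} (φ : A →ₐ[k] B) (s : Finset ℕ) (a : ℕ → (RP k A n →₀ E))
    (b : ℕ → (RP k B n →₀ E)) (hab : ∀ j ∈ s, IsPull k E 0 φ (a j) (b j))
    (h0 : IsPull k E 0 φ (0 : RP k A n →₀ E) 0) :
    IsPull k E 0 φ (∑ j ∈ s, a j) (∑ j ∈ s, b j) := by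
  classical
  induction s using Finset.induction_on with
  | empty => simpa using h0
  | insert j s hj ih =>
    rw [Finset.sum_insert hj, Finset.sum_insert hj]
    exact (h.1 k A B E 0 n φ _ _ _ _ 0 (hab j (Finset.mem_insert_self j s))
      (ih fun i hi => hab i (Finset.mem_insert_of_mem hi))).2.1

/-- the differences of the roots -/
lemma unit_sub {k T : Type} [Field k] [CommRing T] [Algebra k T] {p : ℕ} [CharP k p] {i j : ℕ}
    (hi : i < p) (hj : j < p) (hij : i ≠ j) : IsUnit ((i : T) - (j : T)) := by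
  have h1 : ((i : k) - (j : k)) ≠ 0 := by
    intro h
    exact hij (CharP.natCast_injOn_Iio k p hi hj (sub_eq_zero.1 h))
  have h2 := (IsUnit.mk0 _ h1).map (algebraMap k T)
  rwa [map_sub, map_natCast, map_natCast] at h2

end ADEL

theorem t_ADEL : M_ADEL := by
  intro hPUSH hPLIN hACH2 hB4 hBPU hADL1
  intro k R R' E _ _ _ _ _ _ _ _ p _ _ G f v hv ψ hψ hf hker w hwi hw n c d hc hb
  have : Algebra.FiniteType k R' := Algebra.FiniteType.of_surjective ψ hψ
  have key : ∀ i < p, ∃ e : RP k R'[X] (n + 1) →₀ E,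
      IsPull k E 0 (chp (k := k) (f := f) (v + i) (root_add (k := k) hv i))
        (∑ i ∈ Finset.range p, push E (shp ψ hf (w i) (hw i))
          (shp_surjective ψ hψ hf _ (hw i)) (c i))
        (push E (mapX ψ) (mapX_surjective ψ hψ) e) ∧ IsBeta k E e (d i) := by
    intro i hi
    have hm : IsPull k E 0 (muH (-1 : R'ˣ)) (c i)
        (push E ((mu (k := k) (-1 : R'ˣ)).symm : R'[X] →ₐ[k] R'[X])
          (mu (k := k) (-1 : R'ˣ)).symm.surjective (c i)) :=
      (hPLIN.2 k R'[X] R'[X] E (n + 1) (mu (k := k) (-1 : R'ˣ)) (c i) _).2 rfl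
    set e := push E ((mu (k := k) (-1 : R'ˣ)).symm : R'[X] →ₐ[k] R'[X])
          (mu (k := k) (-1 : R'ˣ)).symm.surjective (c i) with he
    refine ⟨e, ?_, hB4 k R' E n _ (c i) e (d i) hm (hb i hi)⟩
    have ewi : ψ (v + i) = w i := by rw [map_add, map_natCast, hwi]
    have h0 : (ψ (v + i)) ^ p - ψ (v + i) = ψ G := by
      rw [ewi]
      exact hw i
    obtain ⟨a1, a2⟩ := hACH2 k R R' E p G f (v + i) (root_add (k := k) hv i) ψ hψ hf hker (n + 1)
    have b1 := a1 h0 (c i) e hm
    rw [ADEL.push_shp_congr E ψ hψ hf ewi h0 (hw i)] at b1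
    have b2 : ∀ j ∈ Finset.range p,
        IsPull k E 0 (chp (k := k) (f := f) (v + i) (root_add (k := k) hv i))
          (push E (shp ψ hf (w j) (hw j)) (shp_surjective ψ hψ hf _ (hw j)) (c j))
          (if j = i then push E (mapX ψ) (mapX_surjective ψ hψ) e else 0) := by
      intro j hj
      by_cases hji : j = i
      · subst hji
        rw [if_pos rfl]
        exact b1
      · rw [if_neg hji]
        refine a2 (w j) (hw j) (c j) ?_
        rw [ewi, hwi, hwi, add_sub_add_left_eq_sub]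
        exact ADEL.unit_sub (k := k) (Finset.mem_range.1 hj) hi hji
    have h00 := (hPLIN.1 k _ _ E 0 (n + 1) _ _ _ _ _ 0 b1 b1).2.2.2.2
    have b3 := ADEL.pull_sum hPLIN _ (Finset.range p) _ _ b2 h00
    rw [Finset.sum_ite_eq', if_pos (Finset.mem_range.2 hi)] at b3
    exact b3
  intro i hi j hj
  obtain ⟨e, he, hbe⟩ := key i hi
  obtain ⟨e', he', hbe'⟩ := key j hj
  have hB := hBPU k R R' E n ψ hψ e (d i) hbe
  have hB' := hBPU k R R' E n ψ hψ e' (d j) hbe'
  have hmain := hADL1 k R E p G f (v + i) (v + j) (root_add (k := k) hv i)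
    (root_add (k := k) hv j) n _ _ _ _ _ hc he he' hB hB'
  rw [← map_sub, ← hker] at hmain
  have hP := (hPUSH k R R' E ψ hψ n).2.1 ⊥ (d i - d j)
  exact hP.mp hmain

end ASC
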