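import Pool.Agent.ASC.Stmts

/-!
# ASC: the two specialisations of a cycle which is rationally equivalent to zero
-/

set_option autoImplicit false

open Polynomial

namespace ASC

open CUB

namespace ADL1

variable {k R : Type} [Field k] [CommRing R] [Algebra k R] {p : ℕ} [Fact p.Prime] [CharP k p]

lemma map_ideal (G f v : R) (hv : v ^ p - v = G) :
    (Ideal.span {algebraMap R[X] (YP p G f) (C f)}).map (chp (k := k) v hv).toRingHom =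
      (Ideal.span {f}).map (CC k R).toRingHom := by
  rw [Ideal.map_span, Ideal.map_span, Set.image_singleton, Set.image_singleton]
  have h1 : (chp (k := k) v hv).toRingHom (algebraMap R[X] (YP p G f) (C f)) = C f := by
    have h2 : (chp (k := k) v hv).toRingHom (algebraMap R[X] (YP p G f) (C f)) =
        chp (k := k) v hv (algebraMap R[X] (YP p G f) (C f)) := rfl
    rw [h2, chp_algebraMap, evs_C, CC_apply]
  rw [h1]
  rfl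

/-- one chart, the case of a cycle supported on `f = 0` -/
lemma one [PerfectField k] [Algebra.FiniteType k R] {E : Type} [Field E] (hFP : S_FP)
    (hCHI : S_ACHI) (hB3 : S_B3) (G f v : R) (hv : v ^ p - v = G)
    (n : ℕ) (c : RP k (YP p G f) (n + 1) →₀ E) (e : RP k R[X] (n + 1) →₀ E) (d : RP k R n →₀ E)
    (hc : c ∈ ratOn k E (n + 1) (Ideal.span {algebraMap R[X] (YP p G f) (C f)}))
    (he : IsPull k E 0 (chp v hv) c e) (hd : IsBeta k E e d) :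
    d ∈ ratOn k E n (Ideal.span {f}) := by
  have hg : Good k 0 (chp (k := k) (f := f) v hv) := hCHI k R p G f v hv
  have h1 := hFP k (YP p G f) R[X] E 0 (n + 1) (chp v hv) hg _ c e he hc
  rw [map_ideal] at h1
  exact hB3 k R E n (Ideal.span {f}) e d h1 hd

end ADL1

theorem t_ADL1 : M_ADL1 := by
  intro hFPX hFP hPL hCHI hB1 hBL hB3 hDLG
  intro k R E _ _ _ _ _ _ p _ _ G f v w hv hw n c
  have hg0 : Good k 0 (chp (k := k) (f := f) v hv) := hCHI k R p G f v hv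
  have hg1 : Good k 0 (chp (k := k) (f := f) w hw) := hCHI k R p G f w hw
  suffices H : c ∈ rat k (YP p G f) E (n + 1) → ∀ (e₀ e₁ : RP k R[X] (n + 1) →₀ E)
      (d₀ d₁ : RP k R n →₀ E), IsPull k E 0 (chp v hv) c e₀ →
      IsPull k E 0 (chp w hw) c e₁ → IsBeta k E e₀ d₀ → IsBeta k E e₁ d₁ →
      d₀ - d₁ ∈ ratOn k E n (Ideal.span {f}) by
    intro e₀ e₁ d₀ d₁ hc
    exact H hc e₀ e₁ d₀ d₁
  intro hc
  refine Submodule.span_induction (p := fun c _ => ∀ (e₀ e₁ : RP k R[X] (n + 1) →₀ E)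
      (d₀ d₁ : RP k R n →₀ E), IsPull k E 0 (chp v hv) c e₀ →
      IsPull k E 0 (chp w hw) c e₁ → IsBeta k E e₀ d₀ → IsBeta k E e₁ d₁ →
      d₀ - d₁ ∈ ratOn k E n (Ideal.span {f})) ?_ ?_ ?_ ?_ hc
  · rintro c ⟨q, a, -, ha, hdv⟩ e₀ e₁ d₀ d₁ h0 h1 hb0 hb1
    by_cases hf : algebraMap R[X] (YP p G f) (C f) ∈ q.1.asIdeal
    · have hc' : c ∈ ratOn k E (n + 1) (Ideal.span {algebraMap R[X] (YP p G f) (C f)}) := by
        refine Submodule.subset_span ⟨q, a, ?_, ha, hdv⟩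
        rw [Ideal.span_singleton_le_iff_mem]
        exact hf
      exact Submodule.sub_mem _ (ADL1.one hFP hCHI hB3 G f v hv n c e₀ d₀ hc' h0 hb0)
        (ADL1.one hFP hCHI hB3 G f w hw n c e₁ d₁ hc' h1 hb1)
    · exact hDLG k R E p G f v w hv hw n q a c e₀ e₁ d₀ d₁ hf ha hdv h0 h1 hb0 hb1
  · intro e₀ e₁ d₀ d₁ h0 h1 hb0 hb1
    have z0 : e₀ = 0 := (hPL.1 k _ _ E 0 (n + 1) (chp v hv) 0 0 e₀ 0 0 h0
      (hPL.1 k _ _ E 0 (n + 1) (chp v hv) 0 0 e₀ e₀ 0 h0 h0).2.2.2.2).1 rfl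
    have z1 : e₁ = 0 := (hPL.1 k _ _ E 0 (n + 1) (chp w hw) 0 0 e₁ 0 0 h1
      (hPL.1 k _ _ E 0 (n + 1) (chp w hw) 0 0 e₁ e₁ 0 h1 h1).2.2.2.2).1 rfl
    have hz : IsBeta k E (0 : RP k R[X] (n + 1) →₀ E) (0 : RP k R n →₀ E) :=
      (hBL k R E n e₀ e₀ d₀ d₀ 0 hb0 hb0).2.2.2.2
    have w0 : d₀ = 0 := (hBL k R E n e₀ 0 d₀ 0 0 hb0 hz).1 z0
    have w1 : d₁ = 0 := (hBL k R E n e₁ 0 d₁ 0 0 hb1 hz).1 z1
    rw [w0, w1, sub_zero]
    exact Submodule.zero_mem _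
  · intro x y _ _ hx hy e₀ e₁ d₀ d₁ h0 h1 hb0 hb1
    obtain ⟨x0, hx0⟩ := hFPX k (YP p G f) R[X] E 0 (n + 1) (chp v hv) hg0 x
    obtain ⟨y0, hy0⟩ := hFPX k (YP p G f) R[X] E 0 (n + 1) (chp v hv) hg0 y
    obtain ⟨x1, hx1⟩ := hFPX k (YP p G f) R[X] E 0 (n + 1) (chp w hw) hg1 x
    obtain ⟨y1, hy1⟩ := hFPX k (YP p G f) R[X] E 0 (n + 1) (chp w hw) hg1 y
    obtain ⟨a0, ha0⟩ := hB1 k R E n x0
    obtain ⟨b0, hb0'⟩ := hB1 k R E n y0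
    obtain ⟨a1, ha1⟩ := hB1 k R E n x1
    obtain ⟨b1, hb1'⟩ := hB1 k R E n y1
    have s0 := (hPL.1 k _ _ E 0 (n + 1) (chp v hv) x y x0 y0 0 hx0 hy0).2.1
    have s1 := (hPL.1 k _ _ E 0 (n + 1) (chp w hw) x y x1 y1 0 hx1 hy1).2.1
    have t0 : e₀ = x0 + y0 := (hPL.1 k _ _ E 0 (n + 1) (chp v hv) (x + y) (x + y) e₀ _ 0 h0 s0).1 rfl
    have t1 : e₁ = x1 + y1 := (hPL.1 k _ _ E 0 (n + 1) (chp w hw) (x + y)
      (x + y) e₁ _ 0 h1 s1).1 rfl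
    have u0 := (hBL k R E n x0 y0 a0 b0 0 ha0 hb0').2.1
    have u1 := (hBL k R E n x1 y1 a1 b1 0 ha1 hb1').2.1
    have w0 : d₀ = a0 + b0 := (hBL k R E n e₀ _ d₀ _ 0 hb0 u0).1 t0
    have w1 : d₁ = a1 + b1 := (hBL k R E n e₁ _ d₁ _ 0 hb1 u1).1 t1
    have h2 := Submodule.add_mem _ (hx x0 x1 a0 a1 hx0 hx1 ha0 ha1)
      (hy y0 y1 b0 b1 hy0 hy1 hb0' hb1')
    have h3 : d₀ - d₁ = (a0 - a1) + (b0 - b1) := by
      rw [w0, w1]
      abel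
    rw [h3]
    exact h2
  · intro r x _ hx e₀ e₁ d₀ d₁ h0 h1 hb0 hb1
    obtain ⟨x0, hx0⟩ := hFPX k (YP p G f) R[X] E 0 (n + 1) (chp v hv) hg0 x
    obtain ⟨x1, hx1⟩ := hFPX k (YP p G f) R[X] E 0 (n + 1) (chp w hw) hg1 x
    obtain ⟨a0, ha0⟩ := hB1 k R E n x0
    obtain ⟨a1, ha1⟩ := hB1 k R E n x1
    have s0 := (hPL.1 k _ _ E 0 (n + 1) (chp v hv) x x x0 x0 r hx0 hx0).2.2.2.1
    have s1 := (hPL.1 k _ _ E 0 (n + 1) (chp w hw) x x x1 x1 r hx1 hx1).2.2.2.1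
    have t0 : e₀ = r • x0 := (hPL.1 k _ _ E 0 (n + 1) (chp v hv) (r • x) (r • x) e₀ _ 0 h0 s0).1 rfl
    have t1 : e₁ = r • x1 := (hPL.1 k _ _ E 0 (n + 1) (chp w hw) (r • x)
      (r • x) e₁ _ 0 h1 s1).1 rfl
    have u0 := (hBL k R E n x0 x0 a0 a0 r ha0 ha0).2.2.2.1
    have u1 := (hBL k R E n x1 x1 a1 a1 r ha1 ha1).2.2.2.1
    have w0 : d₀ = r • a0 := (hBL k R E n e₀ _ d₀ _ 0 hb0 u0).1 t0
    have w1 : d₁ = r • a1 := (hBL k R E n e₁ _ d₁ _ 0 hb1 u1).1 t1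
    have h2 := Submodule.smul_mem _ r (hx x0 x1 a0 a1 hx0 hx1 ha0 ha1)
    rw [w0, w1, ← smul_sub]
    exact h2

end ASC
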