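import Pool.Agent.ASC.Stmts
import Pool.Agent.CUB.A_PBC

/-!
# ASC, module AE1: one equation
-/

set_option autoImplicit false

open Polynomial

namespace ASC

open CUB

namespace AE1

section

variable {k : Type} [Field k] {p : ℕ} [Fact p.Prime] [CharP k p] {S : Type} [CommRing S]
  [Algebra k S]

lemma rotH_yp (g : S) : rotH (k := k) g (yp p g) = yp p g + 1 := rot_yp g

lemma rotH_algebraMap (g t : S) :
    rotH (k := k) g (algebraMap S (QP p S g) t) = algebraMap S (QP p S g) t := rot_algebraMap g t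

/-- The sheet commutes with the rotations. -/
lemma omega_rot (G f : S) (hf : Pbase k p G f = 0)
    (hv : (yp p G) ^ p - yp p G = Pbase k p G G) :
    (shp (k := k) (Pbase k p G) hf (yp p G) hv).comp (rotH (k := k) (C G + X * C f)) =
      (mapX (rotH (k := k) G)).comp (shp (k := k) (Pbase k p G) hf (yp p G) hv) := by
  apply P_ext
  · intro P
    rw [AlgHom.comp_apply, AlgHom.comp_apply, rotH_algebraMap, shp_algebraMap]
    change P.map (Pbase k p G).toRingHom =
      (P.map (Pbase k p G).toRingHom).map (rotH (k := k) G).toRingHom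
    rw [Polynomial.map_map]
    congr 1
    ext x
    exact (rotH_algebraMap G x).symm
  · rw [AlgHom.comp_apply, AlgHom.comp_apply, rotH_yp, map_add, map_one, shp_yp]
    change C (yp p G) + 1 = (C (yp p G)).map (rotH (k := k) G).toRingHom
    rw [Polynomial.map_C]
    have h1 : (rotH (k := k) G).toRingHom (yp p G) = yp p G + 1 := rotH_yp G
    rw [h1, map_add, map_one]

/-- `rotH` is injective. -/
lemma rotH_injective (g : S) : Function.Injective (rotH (k := k) (p := p) g) :=
  (rot (k := k) g).injective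

lemma mapX_rotH_injective (g : S) : Function.Injective (mapX (rotH (k := k) (p := p) g)) :=
  Polynomial.map_injective (rotH (k := k) (p := p) g).toRingHom (rotH_injective g)

end

end AE1

open AE1 in
theorem t_AE1 : M_AE1 := by
  intro hFPX hGX hPLIN _ hPCO hB2 hB3 hAST hATRV hAOM hAROT
  intro k S S' E _ _ _ _ _ _ _ _ _ _ p _ _ G f ψ hψ hker n hT c
  have hf0 : ψ f = 0 := by
    have h1 : f ∈ RingHom.ker ψ.toRingHom := by
      rw [hker]
      exact Ideal.mem_span_singleton_self f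
    exact h1
  -- (i) the rotation acts trivially on the cycles of dimension `n + 1` of the product
  have hD : ∀ b : RP k (YP p (ψ G) (ψ f)) (n + 1) →₀ E,
      prot E _ b - b ∈ rat k (YP p (ψ G) (ψ f)) E (n + 1) := by
    intro b
    apply hATRV k S'[X] E p _ (n + 1) b
    apply hAST k S S' E p G f ψ hψ hker (n + 1) (prot E _ b - b)
    rw [map_sub]
    have h1 := (hAROT k S[X] E p (C G + X * C f) (n + 1)).2.2.2 S'[X]
      (C (ψ G) + X * C (ψ f)) (mapX ψ) (by simp [mapX]) (mapX_surjective ψ hψ) b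
    have h2 : push E (YPmap p G f ψ) (YPmap_surjective G f ψ hψ) (prot E _ b) =
        prot E (C G + X * C f : S[X]) (push E (YPmap p G f ψ) (YPmap_surjective G f ψ hψ) b) := h1
    rw [h2]
    exact hT _
  -- (ii)
  have hf1 : Pbase k p (ψ G) (ψ f) = 0 := by rw [hf0, map_zero]
  have hv1 : (yp p (ψ G)) ^ p - yp p (ψ G) = Pbase k p (ψ G) (ψ G) :=
    sub_eq_zero.mp (yp_eq (p := p) (ψ G))
  set ω := shp (k := k) (Pbase k p (ψ G)) hf1 (yp p (ψ G)) hv1 with hω
  have hbij : Function.Bijective ω := hAOM k S' p (ψ G) (ψ f) hf0 hf1 hv1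
  set ρ := mapX (rotH (k := k) (p := p) (ψ G)) with hρ
  have hρs : Function.Surjective ρ := mapX_surjective _ (rotH_surjective (ψ G))
  have hcomm : ω.comp (rotH (k := k) (C (ψ G) + X * C (ψ f))) = ρ.comp ω :=
    omega_rot (ψ G) (ψ f) hf1 hv1
  obtain ⟨d, hd⟩ := hFPX k (QP p S' (ψ G)) (QP p S' (ψ G))[X] E 1 n
    (CC k (QP p S' (ψ G))) (hGX.1 k (QP p S' (ψ G))) c
  have h1 := hD (push E ω hbij.2 d)
  have h2 : prot E (C (ψ G) + X * C (ψ f) : S'[X]) (push E ω hbij.2 d) =
      push E ω hbij.2 (push E ρ hρs d) := by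
    have e1 := hPCO.1 k _ _ _ E (n + 1) (rotH (k := k) (C (ψ G) + X * C (ψ f))) ω
      (ω.comp (rotH (k := k) (C (ψ G) + X * C (ψ f)))) (rotH_surjective _) hbij.2
      (hbij.2.comp (rotH_surjective _)) rfl d
    have e2 := hPCO.1 k _ _ _ E (n + 1) ω ρ
      (ω.comp (rotH (k := k) (C (ψ G) + X * C (ψ f)))) hbij.2 hρs
      (hbij.2.comp (rotH_surjective _)) hcomm d
    exact e1.symm.trans e2
  rw [h2, ← map_sub] at h1
  have h3 : push E ρ hρs d - d ∈ rat k (QP p S' (ψ G))[X] E (n + 1) :=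
    (hPCO.2.2.1 k _ _ E (n + 1) (AlgEquiv.ofBijective ω hbij) (push E ρ hρs d - d)).1 h1
  have h4 : IsPull k E 1 (CC k (QP p S' (ψ G))) (prot E (ψ G) c) (push E ρ hρs d) := by
    refine t_PBC k (QP p S' (ψ G)) (QP p S' (ψ G))[X] (QP p S' (ψ G)) (QP p S' (ψ G))[X] E 1 n
      (CC k _) (CC k _) (rotH (ψ G)) ρ (rotH_surjective _) hρs ?_ ?_ c d hd
    · refine AlgHom.ext fun x => ?_
      rw [AlgHom.comp_apply, AlgHom.comp_apply, CC_apply, CC_apply]
      exact (Polynomial.map_C _).symm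
    · have e1 : RingHom.ker ρ.toRingHom = ⊥ :=
        (RingHom.injective_iff_ker_eq_bot ρ.toRingHom).1 (mapX_rotH_injective (ψ G))
      rw [e1]
      exact bot_le
  have h5 := ((hPLIN.1 k _ _ E 1 n (CC k (QP p S' (ψ G))) (prot E (ψ G) c) c (push E ρ hρs d) d 0
    h4 hd).2.2.1)
  have h6 := hB2 k (QP p S' (ψ G)) E n _ _ h5
  apply hB3 k (QP p S' (ψ G)) E n ⊥ _ _ _ h6
  rw [Ideal.map_bot]
  exact h3

end ASC
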