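import Pool.Agent.ASC.Stmts

/-!
# ASC: AETA (base change of a cover to the cover of the base)
-/

set_option autoImplicit false

open Polynomial

namespace ASC

open CUB

namespace AETA

section

variable {k S : Type} [Field k] [CommRing S] [Algebra k S] {p : ℕ} (G f : S)

variable (k p) in
/-- The homomorphism `S → YP p G f`. -/
noncomputable def jS : S →ₐ[k] YP p G f := (Pbase k p (C G + X * C f)).comp (CC k S)

variable (k p) in
lemma jS_apply (s : S) : jS k p G f s = algebraMap S[X] (YP p G f) (C s) := rfl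

variable (k p) in
/-- The homomorphism from `(QP p S G)[X]`. -/
noncomputable def om : (QP p S G)[X] →ₐ[k] QP p (YP p G f) (jS k p G f G) :=
  evs (Pmap (jS k p G f) rfl)
    (algebraMap (YP p G f) (QP p (YP p G f) (jS k p G f G)) (algebraMap S[X] (YP p G f) X))

lemma om_C (x : QP p S G) : om k p G f (C x) = Pmap (jS k p G f) rfl x := evs_C _ _ _

lemma om_X : om k p G f X =
    algebraMap (YP p G f) (QP p (YP p G f) (jS k p G f G)) (algebraMap S[X] (YP p G f) X) :=
  evs_X _ _

lemma om_mapX (P : S[X]) : om k p G f (mapX (Pbase k p G) P) =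
    algebraMap (YP p G f) (QP p (YP p G f) (jS k p G f G)) (algebraMap S[X] (YP p G f) P) := by
  have h1 := evs_unique (k := k) (R := S)
    ((Pbase k p (jS k p G f G)).comp (jS k p G f))
    (algebraMap (YP p G f) (QP p (YP p G f) (jS k p G f G)) (algebraMap S[X] (YP p G f) X))
    ((om k p G f).comp (mapX (Pbase k p G))) (fun r => by
      rw [AlgHom.comp_apply]
      have h0 : mapX (Pbase k p G) (C r) = C (algebraMap S (QP p S G) r) := by
        simp [mapX, Pbase]
      rw [h0, om_C, Pmap_algebraMap]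
      rfl) (by
      rw [AlgHom.comp_apply]
      have h0 : mapX (Pbase k p G) (X : S[X]) = X := by simp [mapX]
      rw [h0, om_X])
  have h2 := evs_unique (k := k) (R := S)
    ((Pbase k p (jS k p G f G)).comp (jS k p G f))
    (algebraMap (YP p G f) (QP p (YP p G f) (jS k p G f G)) (algebraMap S[X] (YP p G f) X))
    ((Pbase k p (jS k p G f G)).comp (Pbase k p (C G + X * C f))) (fun r => rfl) rfl
  exact DFunLike.congr_fun (h1.trans h2.symm) P

variable (g' : (QP p S G)[X]) (h : mapX (Pbase k p G) (C G + X * C f) = g')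

/-- The inverse homomorphism. -/
noncomputable def inv : QP p (QP p S G)[X] g' →ₐ[k] QP p (YP p G f) (jS k p G f G) :=
  Plift (om k p G f)
    (algebraMap (YP p G f) (QP p (YP p G f) (jS k p G f G)) (yp p (C G + X * C f))) (by
      rw [← h, om_mapX, ← map_pow, ← map_sub]
      congr 1
      exact sub_eq_zero.mp (yp_eq (p := p) (C G + X * C f)))

/-- The homomorphism `QP p (YP p G f) _ → QP p (QP p S G)[X] g'`. -/
noncomputable def Phi : QP p (YP p G f) (jS k p G f G) →ₐ[k] QP p (QP p S G)[X] g' :=
  Plift (Pmap (mapX (Pbase k p G)) h)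
    (algebraMap (QP p S G)[X] (QP p (QP p S G)[X] g') (C (yp p G))) (by
      rw [jS_apply, Pmap_algebraMap]
      have h1 : mapX (Pbase k p G) (C G) = C (algebraMap S (QP p S G) G) := by
        simp [mapX, Pbase]
      rw [h1, ← map_pow, ← map_sub, ← C_pow, ← C_sub]
      congr 2
      exact sub_eq_zero.mp (yp_eq (p := p) G))

lemma inv_algebraMap (w : (QP p S G)[X]) : inv G f g' h
    (algebraMap (QP p S G)[X] (QP p (QP p S G)[X] g') w) = om k p G f w := by
  unfold inv
  exact Plift_algebraMap _ _ _ _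

lemma inv_yp : inv G f g' h (yp p g') =
    algebraMap (YP p G f) (QP p (YP p G f) (jS k p G f G)) (yp p (C G + X * C f)) := by
  unfold inv
  exact Plift_yp _ _ _

lemma Phi_algebraMap (x : YP p G f) : Phi G f g' h
    (algebraMap (YP p G f) (QP p (YP p G f) (jS k p G f G)) x) =
    Pmap (mapX (Pbase k p G)) h x := by
  unfold Phi
  exact Plift_algebraMap _ _ _ _

lemma Phi_yp : Phi G f g' h (yp p (jS k p G f G)) =
    algebraMap (QP p S G)[X] (QP p (QP p S G)[X] g') (C (yp p G)) := by
  unfold Phi
  exact Plift_yp _ _ _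

lemma inv_Pmap (x : YP p G f) : inv G f g' h (Pmap (mapX (Pbase k p G)) h x) =
    algebraMap (YP p G f) (QP p (YP p G f) (jS k p G f G)) x := by
  have h1 : (inv G f g' h).comp (Pmap (mapX (Pbase k p G)) h) = Pbase k p (jS k p G f G) := by
    apply P_ext
    · intro P
      rw [AlgHom.comp_apply, Pmap_algebraMap, inv_algebraMap, om_mapX]
      rfl
    · rw [AlgHom.comp_apply, Pmap_yp, inv_yp]
      rfl
  exact DFunLike.congr_fun h1 x

lemma inv_Phi : (inv G f g' h).comp (Phi G f g' h) = AlgHom.id k _ := by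
  apply P_ext
  · intro x
    rw [AlgHom.comp_apply, Phi_algebraMap, inv_Pmap]
    rfl
  · rw [AlgHom.comp_apply, Phi_yp, inv_algebraMap, om_C, Pmap_yp]
    rfl

lemma Phi_om (w : (QP p S G)[X]) : Phi G f g' h (om k p G f w) =
    algebraMap (QP p S G)[X] (QP p (QP p S G)[X] g') w := by
  have hq : ∀ x : QP p S G, Phi G f g' h (Pmap (jS k p G f) rfl x) =
      algebraMap (QP p S G)[X] (QP p (QP p S G)[X] g') (C x) := by
    intro x
    have h1 : (Phi G f g' h).comp (Pmap (jS k p G f) rfl) =
        (Pbase k p g').comp (CC k (QP p S G)) := by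
      apply P_ext
      · intro t
        rw [AlgHom.comp_apply, Pmap_algebraMap, Phi_algebraMap, jS_apply, Pmap_algebraMap]
        have h2 : mapX (Pbase k p G) (C t) = C (algebraMap S (QP p S G) t) := by
          simp [mapX, Pbase]
        rw [h2]
        rfl
      · rw [AlgHom.comp_apply, Pmap_yp, Phi_yp]
        rfl
    exact DFunLike.congr_fun h1 x
  have h1 := evs_unique (k := k) (R := QP p S G)
    ((Pbase k p g').comp (CC k (QP p S G)))
    (algebraMap (QP p S G)[X] (QP p (QP p S G)[X] g') X)
    ((Phi G f g' h).comp (om k p G f)) (fun r => by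
      rw [AlgHom.comp_apply, om_C, hq]
      rfl) (by
      rw [AlgHom.comp_apply, om_X, Phi_algebraMap, Pmap_algebraMap]
      congr 1
      simp [mapX])
  have h2 := evs_unique (k := k) (R := QP p S G)
    ((Pbase k p g').comp (CC k (QP p S G)))
    (algebraMap (QP p S G)[X] (QP p (QP p S G)[X] g') X)
    (Pbase k p g') (fun r => rfl) rfl
  exact DFunLike.congr_fun (h1.trans h2.symm) w

lemma Phi_inv : (Phi G f g' h).comp (inv G f g' h) = AlgHom.id k _ := by
  apply P_ext
  · intro w
    rw [AlgHom.comp_apply, inv_algebraMap, Phi_om]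
    rfl
  · rw [AlgHom.comp_apply, inv_yp, Phi_algebraMap, Pmap_yp]
    rfl

/-- The isomorphism. -/
noncomputable def eqv : QP p (YP p G f) (jS k p G f G) ≃ₐ[k] QP p (QP p S G)[X] g' :=
  AlgEquiv.ofAlgHom (Phi G f g' h) (inv G f g' h) (Phi_inv G f g' h) (inv_Phi G f g' h)

lemma eqv_comp : (eqv G f g' h : _ →ₐ[k] QP p (QP p S G)[X] g').comp
    (Pbase k p (jS k p G f G)) = Pmap (mapX (Pbase k p G)) h :=
  AlgHom.ext fun x => Phi_algebraMap G f g' h x

end

end AETA

theorem t_AETA : M_AETA := by
  intro hGET hGCO k S _ _ _ _ p _ _ G f g' h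
  have : Algebra.FiniteType k S[X] := Algebra.FiniteType.trans (S := S) inferInstance inferInstance
  have : Algebra.FiniteType k (QP p S G)[X] :=
    Algebra.FiniteType.trans (S := QP p S G) inferInstance inferInstance
  have h1 := hGET k (YP p G f) p (AETA.jS k p G f G)
  have h2 := hGCO.2.2.2 k _ _ (AETA.eqv (k := k) (p := p) G f g' h)
  have h3 := hGCO.1 k _ _ _ _ _ 0 0 h1 h2
  rw [AETA.eqv_comp] at h3
  exact h3

end ASC
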