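import Pool.Agent.ASC.Stmts
import Pool.Agent.CUB.A_GET

/-!
# ASC: the cover `y ^ p - y = g` is finite etale
-/

set_option autoImplicit false

namespace ASC

open Polynomial CUB

namespace AGET

/-- the cover is unramified -/
lemma unr {k T : Type} [Field k] [CommRing T] [Algebra k T] (p : ℕ) [Fact p.Prime] [CharP k p]
    (g : T) : Algebra.FormallyUnramified T (QP p T g) := by
  rw [Algebra.FormallyUnramified.iff_comp_injective]
  intro B _ _ I hI f₁ f₂ he
  have hp : 2 ≤ p := (Fact.out : p.Prime).two_le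
  let _ : Algebra k B := ((algebraMap T B).comp (algebraMap k T)).toAlgebra
  apply AdjoinRoot.algHom_ext
  have h1 : ∀ f : QP p T g →ₐ[T] B, f (yp p g) ^ p - f (yp p g) - algebraMap T B g = 0 := by
    intro f
    have h := congrArg f (yp_eq (p := p) g)
    rw [map_sub, map_sub, map_pow, map_zero, AlgHom.commutes] at h
    exact h
  have h2 : f₁ (yp p g) - f₂ (yp p g) ∈ I := by
    rw [← Ideal.Quotient.eq]
    exact DFunLike.congr_fun he (yp p g)
  have h3 : (f₁ (yp p g) - f₂ (yp p g)) ^ 2 = 0 := by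
    have h4 := Ideal.pow_mem_pow h2 2
    rw [hI] at h4
    exact h4
  have h4 : (f₁ (yp p g) - f₂ (yp p g)) ^ p = 0 := pow_eq_zero_of_le hp h3
  rw [sub_pow_p k p] at h4
  have h5 := h1 f₁
  have h6 := h1 f₂
  have h7 : f₁ (yp p g) - f₂ (yp p g) = 0 := by
    linear_combination h4 - h5 + h6
  exact sub_eq_zero.mp h7

end AGET

theorem t_AGET : S_AGET := by
  intro k T _ _ _ _ p _ _ g
  have hunr := AGET.unr (k := k) p g
  refine ⟨?_, fun P => ⟨?_, fun _ => ?_⟩⟩
  · have h2 : (algebraMap T (QP p T g)).Flat := by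
      rw [RingHom.flat_algebraMap_iff]
      infer_instance
    exact h2
  · rw [Nat.cast_zero, add_zero]
    apply GET.rdim_le
    intro x
    obtain ⟨q, hq, hx⟩ := Algebra.IsIntegral.isIntegral (R := T) x
    refine ⟨q, q.natDegree, ?_, hx⟩
    have h1 : q.coeff q.natDegree = 1 := hq
    rw [h1, map_one]
    exact fun h => P.isPrime.ne_top ((Ideal.eq_top_iff_one _).mpr h)
  · have hover : P.asIdeal.LiesOver
        (PrimeSpectrum.comap (Pbase k p g).toRingHom P).asIdeal := ⟨rfl⟩
    let _ := Localization.AtPrime.algebraOfLiesOver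
      (PrimeSpectrum.comap (Pbase k p g).toRingHom P).asIdeal P.asIdeal
    have hu : Algebra.IsUnramifiedAt T P.asIdeal :=
      Algebra.FormallyUnramified.comp T (QP p T g) (Localization.AtPrime P.asIdeal)
    have h1 := ((Algebra.isUnramifiedAt_iff_map_eq T
      (PrimeSpectrum.comap (Pbase k p g).toRingHom P).asIdeal P.asIdeal).1 hu).2
    rw [IsScalarTower.algebraMap_eq T (QP p T g) (Localization.AtPrime P.asIdeal)] at h1
    exact h1.ge

end ASC
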