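import Pool.Agent.ASC.Stmts

/-!
# ASC: the property `Triv` is invariant under isomorphisms
-/

set_option autoImplicit false

open Polynomial

namespace ASC

open CUB

namespace AISO

variable {k : Type} [Field k] {p : ℕ} {T T' : Type} [CommRing T] [CommRing T'] [Algebra k T]
  [Algebra k T']

lemma symm_comp (e : T ≃ₐ[k] T') (g : T) :
    (Pmap (p := p) e.symm.toAlgHom (show e.symm.toAlgHom (e g) = g from e.symm_apply_apply g)).comp
      (Pmap (p := p) e.toAlgHom (show e.toAlgHom g = e g from rfl)) = AlgHom.id k _ := by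
  apply P_ext
  · intro t
    rw [AlgHom.comp_apply, Pmap_algebraMap, Pmap_algebraMap]
    show algebraMap T (QP p T g) (e.symm (e t)) = _
    rw [e.symm_apply_apply]
    rfl
  · rw [AlgHom.comp_apply, Pmap_yp, Pmap_yp]
    rfl

lemma comp_symm (e : T ≃ₐ[k] T') (g : T) :
    (Pmap (p := p) e.toAlgHom (show e.toAlgHom g = e g from rfl)).comp
      (Pmap (p := p) e.symm.toAlgHom (show e.symm.toAlgHom (e g) = g from e.symm_apply_apply g)) =
        AlgHom.id k _ := by
  apply P_ext
  · intro t
    rw [AlgHom.comp_apply, Pmap_algebraMap, Pmap_algebraMap]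
    show algebraMap T' (QP p T' (e g)) (e (e.symm t)) = _
    rw [e.apply_symm_apply]
    rfl
  · rw [AlgHom.comp_apply, Pmap_yp, Pmap_yp]
    rfl

/-- The isomorphism of the covers. -/
noncomputable def iso (e : T ≃ₐ[k] T') (g : T) : QP p T g ≃ₐ[k] QP p T' (e g) :=
  AlgEquiv.ofAlgHom (Pmap (p := p) e.toAlgHom (show e.toAlgHom g = e g from rfl))
    (Pmap (p := p) e.symm.toAlgHom (show e.symm.toAlgHom (e g) = g from e.symm_apply_apply g))
    (comp_symm e g) (symm_comp e g)

lemma iso_toAlgHom (e : T ≃ₐ[k] T') (g : T) :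
    (iso (p := p) e g).toAlgHom =
      Pmap (p := p) e.toAlgHom (show e.toAlgHom g = e g from rfl) := rfl

end AISO

theorem t_AISO : M_AISO := by
  intro hPCO hROT k T T' E _ _ _ _ _ _ p _ _ e g n hT c
  have h1 : Function.Surjective (Pmap (p := p) e.toAlgHom (show e.toAlgHom g = e g from rfl)) :=
    Pmap_surjective _ _ e.surjective
  have h2 : Function.Surjective (Pmap (p := p) e.symm.toAlgHom
      (show e.symm.toAlgHom (e g) = g from e.symm_apply_apply g)) :=
    Pmap_surjective _ _ e.symm.surjective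
  have hid : Function.Surjective (AlgHom.id k (QP p T g)) := fun x => ⟨x, rfl⟩
  have h3 : push E _ h1 (push E _ h2 c) = c := by
    rw [← hPCO.1 k _ _ _ E n _ _ (AlgHom.id k (QP p T g)) h1 h2 hid (AISO.symm_comp e g).symm c]
    exact hPCO.2.1 k _ E n _ hid rfl c
  have h4 := (hROT k T E p g n).2.2.2 T' (e g) e.toAlgHom rfl e.surjective (push E _ h2 c)
  have h5 : prot E g c - c = push E _ h1 (prot E (e g) (push E _ h2 c) - push E _ h2 c) := by
    rw [map_sub, h3, h4, h3]
  rw [h5]
  exact (hPCO.2.2.1 k _ _ E n (AISO.iso e g) _).2 (hT _)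

end ASC
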