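import Pool.Agent.ASC.Stmts

/-!
# ASC, module AKER: kernels of homomorphisms of Artin-Schreier covers
-/

set_option autoImplicit false

open Polynomial

namespace ASC

open CUB

namespace AKER

theorem map_apPoly (p : ℕ) {T S : Type} [CommRing T] [CommRing S] (φ : T →+* S) (g : T) :
    (apPoly p g).map φ = apPoly p (φ g) := by
  unfold apPoly
  rw [Polynomial.map_sub, Polynomial.map_sub, Polynomial.map_pow, Polynomial.map_X,
    Polynomial.map_C]

theorem Pmap_mk {k T S : Type} [Field k] [CommRing T] [CommRing S] [Algebra k T] [Algebra k S]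
    {p : ℕ} {g : T} {g' : S} (φ : T →ₐ[k] S) (h : φ g = g') (P : T[X]) :
    Pmap (p := p) φ h (AdjoinRoot.mk (apPoly p g) P) =
      AdjoinRoot.mk (apPoly p g') (P.map φ.toRingHom) := by
  have h1 : (Pmap (p := p) φ h).toRingHom.comp (AdjoinRoot.mk (apPoly p g)) =
      (AdjoinRoot.mk (apPoly p g')).comp (Polynomial.mapRingHom φ.toRingHom) := by
    refine Polynomial.ringHom_ext (fun a => ?_) ?_
    · have h2 : Pmap (p := p) φ h (algebraMap T (QP p T g) a) =
          algebraMap S (QP p S g') (φ a) := Pmap_algebraMap φ h a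
      refine Eq.trans h2 ?_
      rw [RingHom.comp_apply, Polynomial.coe_mapRingHom, Polynomial.map_C]
      rfl
    · have h2 : Pmap (p := p) φ h (yp p g) = yp p g' := Pmap_yp φ h
      refine Eq.trans h2 ?_
      rw [RingHom.comp_apply, Polynomial.coe_mapRingHom, Polynomial.map_X]
      rfl
  exact congrArg (fun f => f P) h1

theorem ker_Pmap (k T S : Type) [Field k] [CommRing T] [CommRing S] [Algebra k T] [Algebra k S]
    (p : ℕ) [Fact p.Prime] (g : T) (g' : S) (φ : T →ₐ[k] S) (h : φ g = g') :
    RingHom.ker (Pmap (p := p) φ h).toRingHom =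
      (RingHom.ker φ.toRingHom).map (algebraMap T (QP p T g)) := by
  apply le_antisymm
  · intro x hx
    obtain ⟨P, rfl⟩ := AdjoinRoot.mk_surjective x
    have h1 : AdjoinRoot.mk (apPoly p g) P =
        AdjoinRoot.mk (apPoly p g) (P %ₘ apPoly p g) := by
      rw [AdjoinRoot.mk_eq_mk]
      have h2 := Polynomial.modByMonic_add_div P (apPoly p g)
      refine ⟨P /ₘ apPoly p g, ?_⟩
      linear_combination -h2
    have h3 : (P %ₘ apPoly p g).map φ.toRingHom = 0 := by
      rcases subsingleton_or_nontrivial S with hS | hS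
      · exact Subsingleton.elim _ _
      have hT : Nontrivial T := φ.toRingHom.domain_nontrivial
      have h4 : Pmap (p := p) φ h (AdjoinRoot.mk (apPoly p g) P) = 0 := hx
      rw [h1, Pmap_mk, AdjoinRoot.mk_eq_zero] at h4
      by_contra hne
      refine (apPoly_monic g').not_dvd_of_degree_lt hne ?_ h4
      have h5 : (apPoly p g').degree = (apPoly p g).degree := by
        have h6 := map_apPoly p φ.toRingHom g
        have h7 : φ.toRingHom g = g' := h
        rw [h7] at h6
        rw [← h6]
        exact (apPoly_monic g).degree_map φ.toRingHom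
      rw [h5]
      exact lt_of_le_of_lt Polynomial.degree_map_le
        (Polynomial.degree_modByMonic_lt P (apPoly_monic g))
    have h8 : P %ₘ apPoly p g ∈ Ideal.map C (RingHom.ker φ.toRingHom) := by
      rw [Ideal.mem_map_C_iff]
      intro n
      have h9 := congrArg (fun f => f.coeff n) h3
      simp only [Polynomial.coeff_map, Polynomial.coeff_zero] at h9
      exact h9
    rw [h1]
    have h10 := Ideal.mem_map_of_mem (AdjoinRoot.mk (apPoly p g)) h8
    rw [Ideal.map_map] at h10
    exact h10
  · rw [Ideal.map_le_iff_le_comap]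
    intro x hx
    have h1 : φ x = 0 := hx
    have h2 : Pmap (p := p) φ h (algebraMap T (QP p T g) x) = 0 := by
      rw [Pmap_algebraMap, h1, map_zero]
    exact h2

theorem ker_mapX (k R S : Type) [Field k] [CommRing R] [CommRing S] [Algebra k R] [Algebra k S]
    (ψ : R →ₐ[k] S) :
    RingHom.ker (mapX ψ).toRingHom = (RingHom.ker ψ.toRingHom).map (CC k R).toRingHom := by
  have h := Polynomial.ker_mapRingHom ψ.toRingHom
  exact h

end AKER

theorem t_AKER : S_AKER := by
  refine ⟨fun k T S _ _ _ _ _ p _ _ g g' φ h => AKER.ker_Pmap k T S p g g' φ h, ?_⟩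
  intro k R S _ _ _ _ _ p _ _ G f ψ
  have h0 : mapX ψ (C G + X * C f) = C (ψ G) + X * C (ψ f) := by simp [mapX]
  have h1 := AKER.ker_Pmap k _ _ p (C G + X * C f) _ (mapX ψ) h0
  refine h1.trans ?_
  rw [AKER.ker_mapX, Ideal.map_map]
  rfl

end ASC
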