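import Pool.Agent.ASC.Stmts

/-!
# ASC, module AOM (helper68): the split cover is a polynomial ring over the cover
-/

set_option autoImplicit false

open Polynomial

namespace ASC

open CUB

namespace AOM

variable {k S : Type} [Field k] [CommRing S] [Algebra k S] {p : ℕ} [Fact p.Prime] [CharP k p]

variable (k p) in
/-- The inclusion of the base. -/
noncomputable def jS (G : S) : S →ₐ[k] YP p G 0 :=
  (Pbase k p (C G + X * C (0 : S))).comp (CC k S)

omit [Fact p.Prime] [CharP k p] in
lemma hy (G : S) : (yp p (C G + X * C (0 : S))) ^ p - yp p (C G + X * C (0 : S)) =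
    jS k p G G := by
  have h := yp_eq (p := p) (C G + X * C (0 : S))
  have h2 : jS k p G G = algebraMap S[X] (YP p G 0) (C G) := rfl
  have h3 : (C G : S[X]) = C G + X * C (0 : S) := by
    rw [C_0, mul_zero, add_zero]
  have h4 : algebraMap S[X] (YP p G 0) (C G) = algebraMap S[X] (YP p G 0) (C G + X * C (0 : S)) :=
    congrArg _ h3
  rw [h2, h4]
  exact sub_eq_zero.1 h

variable (k p) in
/-- The inclusion of the cover. -/
noncomputable def theta (G : S) : QP p S G →ₐ[k] YP p G 0 :=
  Plift (jS k p G) (yp p (C G + X * C (0 : S))) (hy G)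

variable (k p) in
/-- The inverse. -/
noncomputable def inv (G : S) : (QP p S G)[X] →ₐ[k] YP p G 0 :=
  evs (theta k p G) (algebraMap S[X] (YP p G 0) X)

end AOM

open AOM

theorem t_AOM : S_AOM := by
  intro k S _ _ _ p _ _ G f hf0 hf hv
  subst hf0
  rw [Function.bijective_iff_has_inverse]
  have e1 : (inv k p G).comp (shp (k := k) (Pbase k p G) hf (yp p G) hv) = AlgHom.id k _ := by
    apply P_ext
    · intro P
      rw [AlgHom.comp_apply, shp_algebraMap]
      have h1 := evs_unique (k := k) (R := S) (jS k p G) (algebraMap S[X] (YP p G 0) X)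
        ((inv k p G).comp (mapX (Pbase k p G))) (fun r => by
          rw [AlgHom.comp_apply]
          have h0 : mapX (Pbase k p G) (C r) = C (algebraMap S (QP p S G) r) := by
            simp [mapX, Pbase]
          rw [h0, AOM.inv, evs_C, theta, Plift_algebraMap]) (by
          rw [AlgHom.comp_apply]
          have h0 : mapX (Pbase k p G) (X : S[X]) = X := by simp [mapX]
          rw [h0, AOM.inv, evs_X])
      have h2 := evs_unique (k := k) (R := S) (jS k p G) (algebraMap S[X] (YP p G 0) X)
        (Pbase k p (C G + X * C (0 : S))) (fun r => rfl) rfl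
      exact DFunLike.congr_fun (h1.trans h2.symm) P
    · rw [AlgHom.comp_apply, shp_yp, AOM.inv, evs_C, theta, Plift_yp]
      rfl
  have e2 : (shp (k := k) (Pbase k p G) hf (yp p G) hv).comp (inv k p G) = AlgHom.id k _ := by
    have h0 : (shp (k := k) (Pbase k p G) hf (yp p G) hv).comp (theta k p G) =
        CC k (QP p S G) := by
      apply P_ext
      · intro t
        rw [AlgHom.comp_apply, theta, Plift_algebraMap]
        have h1 : jS k p G t = algebraMap S[X] (YP p G 0) (C t) := rfl
        rw [h1, shp_algebraMap]
        simp [mapX, Pbase]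
      · rw [AlgHom.comp_apply, theta, Plift_yp, shp_yp]
        rfl
    have h1 := evs_unique (k := k) (CC k (QP p S G)) X
      ((shp (k := k) (Pbase k p G) hf (yp p G) hv).comp (inv k p G)) (fun r => by
        rw [AlgHom.comp_apply, AOM.inv, evs_C]
        exact DFunLike.congr_fun h0 r) (by
        rw [AlgHom.comp_apply, AOM.inv, evs_X, shp_algebraMap]
        simp [mapX])
    have h2 := evs_unique (k := k) (CC k (QP p S G)) X (AlgHom.id k (QP p S G)[X])
      (fun r => rfl) rfl
    exact h1.trans h2.symm
  exact ⟨inv k p G, fun x => DFunLike.congr_fun e1 x, fun x => DFunLike.congr_fun e2 x⟩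

end ASC
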