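import Pool.Agent.ASC.Stmts

/-!
# ASC, module AROT: the action of `y ↦ y + 1` on cycles
-/

set_option autoImplicit false

open Polynomial

namespace ASC

open CUB

namespace AROT

variable {k : Type} [Field k] {p : ℕ} [Fact p.Prime] [CharP k p] {T : Type} [CommRing T]
  [Algebra k T]

/-- the composition of `i` copies of `y ↦ y + 1` -/
noncomputable def rr (g : T) : ℕ → (QP p T g →ₐ[k] QP p T g)
  | 0 => AlgHom.id k _
  | i + 1 => (rr g i).comp (rotH g)

lemma rr_surjective (g : T) : ∀ i : ℕ, Function.Surjective (rr (k := k) (p := p) g i) := by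
  intro i
  induction i with
  | zero => exact Function.surjective_id
  | succ i ih =>
    rw [rr, AlgHom.coe_comp]
    exact ih.comp (rotH_surjective g)

lemma rotH_yp (g : T) : rotH (k := k) g (yp p g) = yp p g + 1 := rot_yp g

lemma rotH_algebraMap (g t : T) :
    rotH (k := k) g (algebraMap T (QP p T g) t) = algebraMap T (QP p T g) t := rot_algebraMap g t

lemma rr_algebraMap (g t : T) : ∀ i : ℕ,
    rr (k := k) (p := p) g i (algebraMap T (QP p T g) t) = algebraMap T (QP p T g) t := by
  intro i
  induction i with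
  | zero => rfl
  | succ i ih => rw [rr, AlgHom.comp_apply, rotH_algebraMap, ih]

lemma rr_yp (g : T) : ∀ i : ℕ, rr (k := k) (p := p) g i (yp p g) = yp p g + i := by
  intro i
  induction i with
  | zero =>
    rw [Nat.cast_zero, add_zero]
    rfl
  | succ i ih =>
    rw [rr, AlgHom.comp_apply, rotH_yp, map_add, map_one, ih]
    push_cast
    ring

lemma rr_p (g : T) : rr (k := k) (p := p) g p = AlgHom.id k _ := by
  apply P_ext
  · intro t
    rw [rr_algebraMap]
    rfl
  · rw [rr_yp]
    have h : ((p : ℕ) : QP p T g) = 0 := by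
      have h2 : algebraMap k (QP p T g) ((p : ℕ) : k) = ((p : ℕ) : QP p T g) := map_natCast _ _
      rw [← h2, CharP.cast_eq_zero, map_zero]
    rw [h, add_zero]
    rfl

lemma rot_symm_comp (g : T) : (rotH (k := k) (p := p) g).comp
    ((rot (k := k) (p := p) g).symm : QP p T g →ₐ[k] QP p T g) = AlgHom.id k _ := by
  refine AlgHom.ext fun x => ?_
  exact (rot (k := k) (p := p) g).apply_symm_apply x

lemma Pmap_rot {S : Type} [CommRing S] [Algebra k S] (g : T) (g' : S) (φ : T →ₐ[k] S)
    (h : φ g = g') : (rotH (k := k) (p := p) g').comp (Pmap φ h) =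
      (Pmap φ h).comp (rotH (k := k) (p := p) g) := by
  apply P_ext
  · intro t
    rw [AlgHom.comp_apply, AlgHom.comp_apply, Pmap_algebraMap, rotH_algebraMap, rotH_algebraMap,
      Pmap_algebraMap]
  · rw [AlgHom.comp_apply, AlgHom.comp_apply, Pmap_yp, rotH_yp, rotH_yp, map_add, map_one,
      Pmap_yp]

lemma push_rot (hC : S_PCO) (E : Type) [Field E] (n : ℕ) {S : Type} [CommRing S] [Algebra k S]
    (g : T) (g' : S) (α : QP p T g →ₐ[k] QP p S g') (hαs : Function.Surjective α)
    (hcomp : (rotH (k := k) (p := p) g').comp α = α.comp (rotH (k := k) (p := p) g))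
    (c : RP k (QP p S g') n →₀ E) :
    push E α hαs (prot E g' c) = prot E g (push E α hαs c) := by
  have hs : Function.Surjective ((rotH (k := k) (p := p) g').comp α) := by
    rw [AlgHom.coe_comp]
    exact (rotH_surjective g').comp hαs
  have e1 := hC.1 k (QP p T g) (QP p S g') (QP p S g') E n α (rotH (k := k) g')
    ((rotH (k := k) (p := p) g').comp α) hαs (rotH_surjective g') hs rfl c
  have e2 := hC.1 k (QP p T g) (QP p T g) (QP p S g') E n (rotH (k := k) g) α
    ((rotH (k := k) (p := p) g').comp α) (rotH_surjective g) hαs hs hcomp c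
  exact e1.symm.trans e2

end AROT

theorem t_AROT : M_AROT := by
  intro hC hL k T E _ _ _ _ p _ _ g n
  refine ⟨?_, ?_, ?_, ?_⟩
  · intro c
    have key : ∀ i : ℕ, ((prot E g : (RP k (QP p T g) n →₀ E) →ₗ[E] _))^[i] c =
        push E (AROT.rr g i) (AROT.rr_surjective g i) c := by
      intro i
      induction i with
      | zero =>
        rw [Function.iterate_zero_apply]
        exact (hC.2.1 k (QP p T g) E n _ _ rfl c).symm
      | succ i ih =>
        rw [Function.iterate_succ_apply', ih]
        exact (hC.1 k (QP p T g) (QP p T g) (QP p T g) E n (rotH g) (AROT.rr g i)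
          (AROT.rr g (i + 1)) (rotH_surjective g) (AROT.rr_surjective g i)
          (AROT.rr_surjective g (i + 1)) rfl c).symm
    rw [key p]
    exact hC.2.1 k (QP p T g) E n _ _ (AROT.rr_p g) c
  · intro c
    exact hC.2.2.1 k (QP p T g) (QP p T g) E n (rot g) c
  · intro c
    refine (hL.2 k (QP p T g) (QP p T g) E n (rot g) (prot E g c) c).2 ?_
    refine (hC.1 k (QP p T g) (QP p T g) (QP p T g) E n _ (rotH g) (AlgHom.id k _)
      (rot g).symm.surjective (rotH_surjective g) Function.surjective_id
      (AROT.rot_symm_comp g).symm c).symm.trans ?_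
    exact hC.2.1 k (QP p T g) E n _ _ rfl c
  · intro S _ _ g' φ h hφ c
    exact AROT.push_rot hC E n g g' (Pmap φ h) (Pmap_surjective φ h hφ) (AROT.Pmap_rot g g' φ h) c

end ASC
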