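import Pool.Agent.ASC.Stmts

/-!
# ASC, module AST: the main step
-/

set_option autoImplicit false

open Polynomial

namespace ASC

open CUB

namespace AST

variable {k : Type} [Field k] {p : ℕ} [Fact p.Prime] [CharP k p] {S S' : Type} [CommRing S]
  [CommRing S'] [Algebra k S] [Algebra k S']

omit [Fact p.Prime] [CharP k p] in
lemma base_eq (ψ : S →ₐ[k] S') (G s : S) :
    Pmap (p := p) ψ (rfl : ψ G = ψ G) (Pbase k p G s) = Pbase k p (ψ G) (ψ s) := by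
  rw [Pbase_apply, Pbase_apply, Pmap_algebraMap]

omit [Fact p.Prime] [CharP k p] in
lemma root_eq (G : S) : (yp p G) ^ p - yp p G = Pbase k p G G := by
  rw [Pbase_apply]
  exact sub_eq_zero.mp (yp_eq (p := p) G)

end AST

theorem t_AST : M_AST := by
  intro hFP hFPX hPBC hPLIN hGCO hPCO hL0 hB1 hBLIN hBINJ hADEL hATWO hAKER hAETA hAOM hAROT k S S'
    E _ _ _ _ _ _ _ _ _ p _ _ G f ψ hψ hker n c hpush
  have hψf : ψ f = 0 := by
    have h1 : f ∈ RingHom.ker ψ.toRingHom := by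
      rw [hker]
      exact Ideal.mem_span_singleton_self f
    exact h1
  obtain ⟨σ, hσ⟩ : ∃ σ : S →ₐ[k] QP p S G, σ = Pbase k p G := ⟨_, rfl⟩
  obtain ⟨σ', hσ'⟩ : ∃ σ' : S' →ₐ[k] QP p S' (ψ G), σ' = Pbase k p (ψ G) := ⟨_, rfl⟩
  obtain ⟨ψ', hψ'⟩ : ∃ ψ' : QP p S G →ₐ[k] QP p S' (ψ G), ψ' = Pmap ψ rfl := ⟨_, rfl⟩
  obtain ⟨v, hv⟩ : ∃ v : QP p S G, v = yp p G := ⟨_, rfl⟩
  obtain ⟨v', hv'⟩ : ∃ v' : QP p S' (ψ G), v' = yp p (ψ G) := ⟨_, rfl⟩
  have hσσ : ∀ s, ψ' (σ s) = σ' (ψ s) := by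
    intro s
    rw [hψ', hσ, hσ']
    exact AST.base_eq ψ G s
  have hψv : ψ' v = v' := by rw [hψ', hv, hv', Pmap_yp]
  have hroot : v ^ p - v = σ G := by rw [hv, hσ]; exact AST.root_eq G
  have hroot' : v' ^ p - v' = σ' (ψ G) := by rw [hv', hσ']; exact AST.root_eq (ψ G)
  have hψ's : Function.Surjective ψ' := by rw [hψ']; exact Pmap_surjective _ _ hψ
  have hkerσ : RingHom.ker ψ'.toRingHom = Ideal.span {σ f} := by
    rw [hψ', hAKER.1 k S S' p G (ψ G) ψ rfl, hker, Ideal.map_span, Set.image_singleton, hσ]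
    rfl
  have hf' : σ' (ψ f) = 0 := by rw [hψf, map_zero]
  have hψσf : ψ' (σ f) = 0 := by rw [hσσ]; exact hf'
  -- the sheet is an isomorphism
  obtain ⟨ω, hω⟩ : ∃ ω : YP p (ψ G) (ψ f) →ₐ[k] (QP p S' (ψ G))[X], ω = shp σ' hf' v' hroot' :=
    ⟨_, rfl⟩
  have hbij : Function.Bijective ω := by
    subst hσ' hv'
    rw [hω]
    exact hAOM k S' p (ψ G) (ψ f) hψf hf' hroot'
  obtain ⟨e, he⟩ : ∃ e : YP p (ψ G) (ψ f) ≃ₐ[k] (QP p S' (ψ G))[X],
      (e : YP p (ψ G) (ψ f) →ₐ[k] (QP p S' (ψ G))[X]) = ω := by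
    exact ⟨AlgEquiv.ofBijective ω hbij, AlgHom.ext fun x => rfl⟩
  have hratiff : ∀ (m : ℕ) (x : RP k (YP p (ψ G) (ψ f)) m →₀ E),
      push E e.symm.toAlgHom e.symm.surjective x ∈ rat k (QP p S' (ψ G))[X] E m ↔
        x ∈ rat k (YP p (ψ G) (ψ f)) E m := fun m x =>
    hPCO.2.2.1 k (QP p S' (ψ G))[X] (YP p (ψ G) (ψ f)) E m e.symm x
  rcases Nat.eq_zero_or_pos n with hn | hn
  · subst hn
    exact (hratiff 0 _).1 ((hL0 k (QP p S' (ψ G)) E).2 _)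
  obtain ⟨j, rfl⟩ : ∃ j, n = j + 1 := ⟨n - 1, by omega⟩
  -- the squares
  have hΦ0 : mapX σ (C G + X * C f) = C (σ G) + X * C (σ f) := by simp [mapX]
  have hGoodΦ : Good k 0 (YPmap p G f σ) := by
    subst hσ
    exact hAETA k S p G f _ hΦ0
  have hΦ1 : mapX σ' (C (ψ G) + X * C (ψ f)) = C (ψ' (σ G)) + X * C (ψ' (σ f)) := by
    simp [mapX, hσσ]
  have hGoodΦ' : Good k 0 (Pmap (p := p) (mapX σ') hΦ1) := by
    subst hσ'
    exact hAETA k S' p (ψ G) (ψ f) _ hΦ1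
  obtain ⟨c', hc'⟩ := hFPX k (YP p (ψ G) (ψ f)) (YP p (ψ' (σ G)) (ψ' (σ f))) E 0 (j + 1)
    (Pmap (mapX σ') hΦ1) hGoodΦ' c
  have hsq : (Pmap (p := p) (mapX σ') hΦ1).comp (YPmap p G f ψ) =
      (YPmap p (σ G) (σ f) ψ').comp (YPmap p G f σ) := by
    apply P_ext
    · intro P
      simp only [AlgHom.comp_apply, YPmap, Pmap_algebraMap]
      congr 1
      have h1 : (mapX σ').comp (mapX ψ) = (mapX ψ').comp (mapX (k := k) σ) := by
        apply Polynomial.algHom_ext'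
        · ext s
          simp [mapX, hσσ]
        · simp [mapX]
      exact DFunLike.congr_fun h1 P
    · simp only [AlgHom.comp_apply, YPmap, Pmap_yp]
  have hkk : RingHom.ker (YPmap (k := k) p (σ G) (σ f) ψ').toRingHom ≤
      (RingHom.ker (YPmap (k := k) p G f ψ).toRingHom).map (YPmap (k := k) p G f σ).toRingHom := by
    rw [hAKER.2 k (QP p S G) (QP p S' (ψ G)) p (σ G) (σ f) ψ', hAKER.2 k S S' p G f ψ, hkerσ, hker,
      Ideal.map_span, Ideal.map_span, Ideal.map_span, Set.image_singleton, Set.image_singleton,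
      Set.image_singleton]
    apply le_of_eq
    congr 2
    have h1 : YPmap (k := k) p G f σ (algebraMap S[X] (YP p G f) (C f)) =
        algebraMap (QP p S G)[X] (YP p (σ G) (σ f)) (C (σ f)) := by
      have h2 : mapX σ (C f) = C (σ f) := by simp [mapX]
      rw [YPmap, Pmap_algebraMap, h2]
    exact h1.symm
  have hpb := hPBC k (YP p G f) (YP p (σ G) (σ f)) (YP p (ψ G) (ψ f))
    (YP p (ψ' (σ G)) (ψ' (σ f))) E 0
    (j + 1) (YPmap p G f σ) (Pmap (mapX σ') hΦ1) (YPmap p G f ψ) (YPmap p (σ G) (σ f) ψ')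
    (YPmap_surjective G f ψ hψ) (YPmap_surjective (σ G) (σ f) ψ' hψ's) hsq hkk c c' hc'
  have hrat := hFP k (YP p G f) (YP p (σ G) (σ f)) E 0 (j + 1) (YPmap p G f σ) hGoodΦ ⊥ _ _ hpb
    hpush
  rw [Ideal.map_bot] at hrat
  -- the roots
  have hw : ∀ i : ℕ, (v' + i) ^ p - (v' + i) = ψ' (σ G) := by
    intro i
    rw [hσσ]
    exact root_add (k := k) hroot' i
  have hW : ∀ i : ℕ, (C (v' + i) : (QP p S' (ψ G))[X]) ^ p - C (v' + i) =
      C (ψ' (σ G)) + X * C (ψ' (σ f)) := by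
    intro i
    rw [hψσf, map_zero, mul_zero, add_zero, ← hw i, map_sub, map_pow]
  have hgood : ∀ i : ℕ, Good k 0 (sgp (k := k) (C (v' + i)) (hW i)) := fun i =>
    (hATWO k (QP p S' (ψ G))[X] E p _ _ (hW i)).1
  have hex : ∀ i : ℕ, ∃ x, IsPull k E 0 (sgp (k := k) (C (v' + i)) (hW i)) c' x := fun i =>
    hFPX k (YP p (ψ' (σ G)) (ψ' (σ f))) (QP p S' (ψ G))[X] E 0 (j + 1) _ (hgood i) c'
  choose cc hcc using hex
  have hV : (C v' : (QP p S' (ψ G))[X]) ^ p - C v' = C (ψ' (σ G)) + X * C (ψ' (σ f)) := by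
    rw [hψσf, map_zero, mul_zero, add_zero, hσσ, ← hroot', map_sub, map_pow]
  have hsum := (hATWO k (QP p S' (ψ G))[X] E p _ _ hV).2.1 (j + 1) c'
    (fun i => C (v' + i)) (fun i => by rw [map_add, map_natCast]) hW cc (fun i _ => hcc i)
  -- specialisation
  have hexd : ∀ i : ℕ, ∃ d : RP k (QP p S' (ψ G)) j →₀ E, IsBeta k E (cc i) d := fun i =>
    hB1 k (QP p S' (ψ G)) E j (cc i)
  choose d hd using hexd
  have hps : ∑ i ∈ Finset.range p, push E (shp ψ' hψσf (v' + i) (hw i))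
      (shp_surjective ψ' hψ's hψσf _ (hw i)) (cc i) ∈ rat k (YP p (σ G) (σ f)) E (j + 1) := by
    have h1 : ∑ i ∈ Finset.range p, push E (shp ψ' hψσf (v' + i) (hw i))
        (shp_surjective ψ' hψ's hψσf _ (hw i)) (cc i) =
        push E (YPmap p (σ G) (σ f) ψ') (YPmap_surjective (σ G) (σ f) ψ' hψ's) c' := by
      rw [hsum, map_sum]
      apply Finset.sum_congr rfl
      intro i _
      have e1 : shp ψ' hψσf (v' + i) (hw i) =
          (sgp (k := k) (C (v' + i)) (hW i)).comp (YPmap p (σ G) (σ f) ψ') := by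
        apply P_ext
        · intro P
          rw [AlgHom.comp_apply, YPmap, Pmap_algebraMap, sgp_algebraMap, shp_algebraMap]
        · rw [AlgHom.comp_apply, YPmap, Pmap_yp, sgp_yp, shp_yp]
      exact hPCO.1 k (YP p (σ G) (σ f)) (YP p (ψ' (σ G)) (ψ' (σ f))) (QP p S' (ψ G))[X] E (j + 1)
        (YPmap p (σ G) (σ f) ψ') (sgp (C (v' + i)) (hW i)) (shp ψ' hψσf (v' + i) (hw i))
        (YPmap_surjective (σ G) (σ f) ψ' hψ's) (sgp_surjective _ _)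
        (shp_surjective ψ' hψ's hψσf _ (hw i)) e1 (cc i)
    rw [h1]
    exact hrat
  have hp1 : 1 < p := (Fact.out : p.Prime).one_lt
  have hdel : d 0 - d 1 ∈ rat k (QP p S' (ψ G)) E j :=
    hADEL k (QP p S G) (QP p S' (ψ G)) E p (σ G) (σ f) v hroot ψ' hψ's hψσf hkerσ
      (fun i => v' + i) (fun i => by rw [hψv]) hw j cc d hps (fun i _ => hd i) 0 (by omega) 1 hp1
  have hcrat : cc 0 - cc 1 ∈ rat k (QP p S' (ψ G))[X] E (j + 1) :=
    hBINJ k (QP p S' (ψ G)) E j (cc 0 - cc 1) (d 0 - d 1)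
      (hBLIN k (QP p S' (ψ G)) E j (cc 0) (cc 1) (d 0) (d 1) 0 (hd 0) (hd 1)).2.2.1 hdel
  -- pull-backs to the sheet
  have he0 : (sgp (k := k) (C (v' + (0 : ℕ))) (hW 0)).comp (Pmap (mapX σ') hΦ1) = ω := by
    rw [hω]
    apply P_ext
    · intro P
      rw [AlgHom.comp_apply, Pmap_algebraMap, sgp_algebraMap, shp_algebraMap]
    · rw [AlgHom.comp_apply, Pmap_yp, sgp_yp, shp_yp, Nat.cast_zero, add_zero]
  have he1 : (sgp (k := k) (C (v' + (1 : ℕ))) (hW 1)).comp (Pmap (mapX σ') hΦ1) =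
      ω.comp (rotH (C (ψ G) + X * C (ψ f))) := by
    rw [hω]
    apply P_ext
    · intro P
      have h1 : rotH (k := k) (p := p) (C (ψ G) + X * C (ψ f))
          (algebraMap S'[X] (YP p (ψ G) (ψ f)) P) = algebraMap S'[X] (YP p (ψ G) (ψ f)) P :=
        rot_algebraMap _ _
      rw [AlgHom.comp_apply, Pmap_algebraMap, sgp_algebraMap, AlgHom.comp_apply, h1,
        shp_algebraMap]
    · have h1 : rotH (k := k) (p := p) (C (ψ G) + X * C (ψ f)) (yp p (C (ψ G) + X * C (ψ f))) =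
          yp p (C (ψ G) + X * C (ψ f)) + 1 := rot_yp _
      have h2 : shp (k := k) σ' hf' v' hroot' (yp p (C (ψ G) + X * C (ψ f)) + 1) = C v' + 1 := by
        rw [map_add, map_one, shp_yp]
      rw [AlgHom.comp_apply, Pmap_yp, sgp_yp, AlgHom.comp_apply, h1, h2, Nat.cast_one, map_add,
        map_one]
  have hgoodω : Good k 0 ω := by
    rw [← he]
    exact hGCO.2.2.2 k _ _ e
  have hcd0 : IsPull k E 0 ω c (cc 0) := by
    rw [← he0]
    exact (hGCO.2.1 k (YP p (ψ G) (ψ f)) (YP p (ψ' (σ G)) (ψ' (σ f))) (QP p S' (ψ G))[X] E _ _ 0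
      (j + 1) hGoodΦ').2 (hgood 0) c c' (cc 0) hc' (hcc 0)
  have hcd1 : IsPull k E 0 (ω.comp (rotH (C (ψ G) + X * C (ψ f)))) c (cc 1) := by
    rw [← he1]
    exact (hGCO.2.1 k (YP p (ψ G) (ψ f)) (YP p (ψ' (σ G)) (ψ' (σ f))) (QP p S' (ψ G))[X] E _ _ 0
      (j + 1) hGoodΦ').2 (hgood 1) c c' (cc 1) hc' (hcc 1)
  -- the cycle rotated back
  obtain ⟨hR1, hR2, hR3, -⟩ := hAROT k S'[X] E p (C (ψ G) + X * C (ψ f)) (j + 1)
  obtain ⟨c₁, hc₁⟩ : ∃ c₁, c₁ = (prot (k := k) (p := p) E (C (ψ G) + X * C (ψ f)))^[p - 1] c :=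
    ⟨_, rfl⟩
  have hpc₁ : prot (k := k) (p := p) E (C (ψ G) + X * C (ψ f)) c₁ = c := by
    have h1 : (prot (k := k) (p := p) E (C (ψ G) + X * C (ψ f)))^[p - 1 + 1] c = c := by
      rw [Nat.sub_add_cancel hp1.le]
      exact hR1 c
    rw [Function.iterate_succ_apply'] at h1
    rw [hc₁]
    exact h1
  have hrotpull : IsPull k E 0 (rotH (C (ψ G) + X * C (ψ f))) c c₁ := by
    have h1 := hR3 c₁
    rwa [hpc₁] at h1
  have hgoodrot : Good k 0 (rotH (k := k) (p := p) (C (ψ G) + X * C (ψ f))) :=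
    hGCO.2.2.2 k _ _ (rot (k := k) (C (ψ G) + X * C (ψ f)))
  obtain ⟨d₁, hd₁⟩ := hFPX k (YP p (ψ G) (ψ f)) (QP p S' (ψ G))[X] E 0 (j + 1) ω hgoodω c₁
  have hcd2 : IsPull k E 0 (ω.comp (rotH (C (ψ G) + X * C (ψ f)))) c d₁ :=
    (hGCO.2.1 k (YP p (ψ G) (ψ f)) (YP p (ψ G) (ψ f)) (QP p S' (ψ G))[X] E _ _ 0 (j + 1)
      hgoodrot).2 hgoodω c c₁ d₁ hrotpull hd₁
  have hd₁c : cc 1 = d₁ :=
    (hPLIN.1 k (YP p (ψ G) (ψ f)) (QP p S' (ψ G))[X] E 0 (j + 1) _ c c (cc 1) d₁ 0 hcd1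
      hcd2).1 rfl
  rw [← hd₁c] at hd₁
  have hdiff : IsPull k E 0 ω (c - c₁) (cc 0 - cc 1) :=
    (hPLIN.1 k (YP p (ψ G) (ψ f)) (QP p S' (ψ G))[X] E 0 (j + 1) _ c c₁ (cc 0) (cc 1) 0 hcd0
      hd₁).2.2.1
  rw [← he] at hdiff
  have hpe := (hPLIN.2 k (YP p (ψ G) (ψ f)) (QP p S' (ψ G))[X] E (j + 1) e (c - c₁)
    (cc 0 - cc 1)).1 hdiff
  have hcc₁ : c - c₁ ∈ rat k (YP p (ψ G) (ψ f)) E (j + 1) := by
    apply (hratiff (j + 1) (c - c₁)).1
    have h1 : push E e.symm.toAlgHom e.symm.surjective (c - c₁) = cc 0 - cc 1 := hpe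
    rw [h1]
    exact hcrat
  have hfin := (hR2 (c - c₁)).2 hcc₁
  rw [map_sub, hpc₁] at hfin
  exact hfin

end ASC
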