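import Pool.Agent.ASC.Stmts
import Pool.Agent.CUB.C_VRX
import Pool.Agent.CUB.C_STP

/-!
# ASC, module ASX: from the cover `y ^ p - y = ∑ t_j f_j` to the common zeros of the `f_j`
-/

set_option autoImplicit false

open Polynomial

namespace ASC

open CUB

namespace ASX

section

variable {k R R' : Type} [Field k] [CommRing R] [CommRing R'] [Algebra k R] [Algebra k R']

lemma finiteType_mv (n : ℕ) [Algebra.FiniteType k R] :
    Algebra.FiniteType k (MvPolynomial (Fin n) R) :=
  Algebra.FiniteType.trans (S := R) inferInstance inferInstance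

variable (ψ : R →ₐ[k] R') (a : R)

lemma le_ker (ha : ψ a = 0) : ∀ x ∈ Ideal.span {a}, ψ x = 0 := by
  intro x hx
  obtain ⟨b, rfl⟩ := Ideal.mem_span_singleton'.mp hx
  rw [map_mul, ha, mul_zero]

/-- The homomorphism on the quotient by one equation. -/
noncomputable def quoHom (ha : ψ a = 0) : R ⧸ Ideal.span {a} →ₐ[k] R' :=
  Ideal.Quotient.liftₐ (Ideal.span {a}) ψ (le_ker ψ a ha)

lemma quoHom_mk (ha : ψ a = 0) (x : R) :
    quoHom ψ a ha (Ideal.Quotient.mkₐ k (Ideal.span {a}) x) = ψ x := rfl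

lemma quoHom_surjective (ha : ψ a = 0) (h : Function.Surjective ψ) :
    Function.Surjective (quoHom ψ a ha) := by
  intro y
  obtain ⟨x, rfl⟩ := h y
  exact ⟨Ideal.Quotient.mkₐ k (Ideal.span {a}) x, rfl⟩

lemma ker_quoHom {r : ℕ} (f : Fin (r + 1) → R) (ha : ψ (f 0) = 0)
    (hker : RingHom.ker ψ.toRingHom = Ideal.span (Set.range f)) :
    RingHom.ker (quoHom ψ (f 0) ha).toRingHom =
      Ideal.span (Set.range fun j : Fin r =>
        Ideal.Quotient.mkₐ k (Ideal.span {f 0}) (f ((0 : Fin (r + 1)).succAbove j))) := by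
  have hs : Function.Surjective (Ideal.Quotient.mkₐ k (Ideal.span {f 0})).toRingHom :=
    Ideal.Quotient.mkₐ_surjective k _
  have h1 : RingHom.ker (quoHom ψ (f 0) ha).toRingHom =
      (RingHom.ker ψ.toRingHom).map (Ideal.Quotient.mkₐ k (Ideal.span {f 0})).toRingHom := by
    apply le_antisymm
    · intro y hy
      obtain ⟨x, rfl⟩ := hs y
      exact Ideal.mem_map_of_mem _ hy
    · rw [Ideal.map_le_iff_le_comap]
      intro x hx
      exact hx
  rw [h1, hker, Ideal.map_span]
  apply le_antisymm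
  · rw [Ideal.span_le]
    rintro _ ⟨_, ⟨i, rfl⟩, rfl⟩
    rcases Fin.eq_self_or_eq_succAbove 0 i with rfl | ⟨j, rfl⟩
    · have h2 : (Ideal.Quotient.mkₐ k (Ideal.span {f 0})).toRingHom (f 0) = 0 :=
        Ideal.Quotient.eq_zero_iff_mem.mpr (Ideal.mem_span_singleton_self _)
      rw [h2]
      exact Ideal.zero_mem _
    · exact Ideal.subset_span ⟨j, rfl⟩
  · rw [Ideal.span_le]
    rintro _ ⟨j, rfl⟩
    exact Ideal.subset_span ⟨_, ⟨_, rfl⟩, rfl⟩

end

/-- The induction. -/
lemma induct (hAISO : S_AISO) (hAE1 : S_AE1) (k E : Type) [Field k] [PerfectField k] [Field E]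
    [CharZero E] (p : ℕ) [Fact p.Prime] [CharP k p] (l : ℕ) : ∀ (r : ℕ) (R R' : Type)
    [CommRing R] [CommRing R'] [Algebra k R] [Algebra k R'] [Algebra.FiniteType k R]
    (f : Fin r → R) (ψ : R →ₐ[k] R'), Function.Surjective ψ →
    RingHom.ker ψ.toRingHom = Ideal.span (Set.range f) →
    Triv k p E (l + r) (lin f) → Triv k p E l (0 : R') := by
  intro r
  induction r with
  | zero =>
    intro R R' _ _ _ _ _ f ψ hψ hker h
    have hinj : Function.Injective ψ := by
      have h1 : RingHom.ker ψ.toRingHom = ⊥ := by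
        rw [hker, Set.range_eq_empty, Ideal.span_empty]
      exact (RingHom.injective_iff_ker_eq_bot ψ.toRingHom).mpr h1
    let e : R' ≃ₐ[k] MvPolynomial (Fin 0) R :=
      (AlgEquiv.ofBijective ψ ⟨hinj, hψ⟩).symm.trans
        ((MvPolynomial.isEmptyAlgEquiv R (Fin 0)).symm.restrictScalars k)
    have h2 : lin f = e 0 := by
      rw [map_zero]
      unfold lin
      simp
    rw [h2] at h
    exact hAISO k R' (MvPolynomial (Fin 0) R) E p e 0 l h
  | succ r ih =>
    intro R R' _ _ _ _ _ f ψ hψ hker h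
    have ha : ψ (f 0) = 0 := by
      have h1 : f 0 ∈ RingHom.ker ψ.toRingHom := by
        rw [hker]
        exact Ideal.subset_span ⟨0, rfl⟩
      exact h1
    have hs : Function.Surjective (Ideal.Quotient.mkₐ k (Ideal.span {f 0})) :=
      Ideal.Quotient.mkₐ_surjective k _
    have hft : Algebra.FiniteType k (R ⧸ Ideal.span {f 0}) :=
      Algebra.FiniteType.of_surjective _ hs
    have hft1 : Algebra.FiniteType k (MvPolynomial (Fin r) R) := finiteType_mv r
    have hft2 : Algebra.FiniteType k (MvPolynomial (Fin r) (R ⧸ Ideal.span {f 0})) :=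
      finiteType_mv r
    refine ih (R ⧸ Ideal.span {f 0}) R' (fun j : Fin r =>
        Ideal.Quotient.mkₐ k (Ideal.span {f 0}) (f ((0 : Fin (r + 1)).succAbove j)))
      (quoHom ψ (f 0) ha) (quoHom_surjective ψ (f 0) ha hψ) (ker_quoHom ψ f ha hker) ?_
    rw [← map_lin]
    refine hAE1 k (MvPolynomial (Fin r) R) (MvPolynomial (Fin r) (R ⧸ Ideal.span {f 0})) E p
      (lin fun j => f ((0 : Fin (r + 1)).succAbove j)) (MvPolynomial.C (f 0))
      (MvPolynomial.mapAlgHom (Ideal.Quotient.mkₐ k (Ideal.span {f 0}))) ?_ ?_ (l + r) ?_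
    · exact MvPolynomial.map_surjective _ hs
    · exact STP.ker_mapAlg r _ (f 0) Ideal.mk_ker
    · refine hAISO k _ (MvPolynomial (Fin (r + 1)) R) E p (VRX.pe k R 0).symm _ (l + r + 1) ?_
      have h3 : (VRX.pe k R 0).symm (C (lin fun j => f ((0 : Fin (r + 1)).succAbove j)) +
          X * C (MvPolynomial.C (f 0))) = lin f := by
        rw [← VRX.pe_lin (k := k) 0 f, AlgEquiv.symm_apply_apply]
      rw [h3]
      exact h

end ASX

open ASX in
theorem t_ASX : M_ASX := by
  intro hFP hPLIN hPCO hATWO _ hAISO hAE1 k R R' E _ _ _ _ _ _ _ _ _ p _ _ r f ψ hψ hker l hall z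
  have hft : Algebra.FiniteType k R' := Algebra.FiniteType.of_surjective ψ hψ
  have htriv : Triv k p E l (0 : R') :=
    induct hAISO hAE1 k E p l r R R' f ψ hψ hker fun c => by
      exact Submodule.sub_mem _ (hall _) (hall _)
  have hp : p ≠ 0 := (Fact.out : p.Prime).ne_zero
  have h0 : (0 : R') ^ p - 0 = 0 := by
    rw [zero_pow hp, sub_zero]
  have h1 : (1 : R') ^ p - 1 = 0 := by
    rw [one_pow, sub_self]
  obtain ⟨g0, -, p3, p4⟩ := hATWO k R' E p (0 : R') 0 h0
  have h2 := htriv (push E (sgp (k := k) (0 : R') h0) (sgp_surjective 0 h0) z)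
  have hcomp : (sgp (k := k) (0 : R') h0).comp (rotH (k := k) (p := p) (0 : R')) =
      sgp (k := k) (1 : R') h1 := by
    apply P_ext
    · intro t
      have h3 : rotH (k := k) (p := p) (0 : R') (algebraMap R' (QP p R' 0) t) =
          algebraMap R' (QP p R' 0) t := rot_algebraMap 0 t
      rw [AlgHom.comp_apply, h3, sgp_algebraMap, sgp_algebraMap]
    · have h3 : rotH (k := k) (p := p) (0 : R') (yp p 0) = yp p 0 + 1 := rot_yp 0
      rw [AlgHom.comp_apply, h3, map_add, sgp_yp, sgp_yp, map_one, zero_add]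
  have h4 : prot E (0 : R') (push E (sgp (k := k) (0 : R') h0) (sgp_surjective 0 h0) z) =
      push E (sgp (k := k) (1 : R') h1) (sgp_surjective 1 h1) z :=
    (hPCO.1 k (QP p R' 0) (QP p R' 0) R' E l (rotH (k := k) (p := p) (0 : R'))
      (sgp (k := k) (0 : R') h0) (sgp (k := k) (1 : R') h1) (rotH_surjective 0)
      (sgp_surjective 0 h0) (sgp_surjective 1 h1) hcomp.symm z).symm
  rw [h4] at h2
  have h5 : IsPull k E 0 (sgp (k := k) (0 : R') h0)
      (push E (sgp (k := k) (1 : R') h1) (sgp_surjective 1 h1) z) 0 :=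
    p4 l 1 h1 z (by
      rw [zero_sub]
      exact isUnit_one.neg)
  have h6 := (hPLIN.1 k (QP p R' 0) R' E 0 l (sgp (k := k) (0 : R') h0) _ _ _ _ 0 h5
    (p3 l z)).2.2.1
  have h7 := hFP k (QP p R' 0) R' E 0 l (sgp (k := k) (0 : R') h0) g0 ⊥ _ _ h6 h2
  rw [Ideal.map_bot, zero_sub] at h7
  exact (Submodule.neg_mem_iff _).mp h7

end ASC
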