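import Pool.Agent.ASC.Stmts

/-!
# ASC, module ATRV: an automorphism of order `p` which acts unipotently acts trivially
-/

set_option autoImplicit false

namespace ASC

open CUB Polynomial

namespace ATRV

/-- Linear algebra: `τ` preserves the subspace `R`, `τ^p` fixes `c`, `(τ - 1)^2 c ∈ R`. -/
lemma lin_alg {E M : Type} [Field E] [CharZero E] [AddCommGroup M] [Module E M] (τ : M →ₗ[E] M)
    (R : Submodule E M) (hR : ∀ x ∈ R, τ x ∈ R) (c : M) (p : ℕ) (hp : p ≠ 0)
    (hc : τ^[p] c = c) (h : τ (τ c - c) - (τ c - c) ∈ R) : τ c - c ∈ R := by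
  have key : ∀ i : ℕ, τ^[i] c - c - (i : E) • (τ c - c) ∈ R := by
    intro i
    induction i with
    | zero => simp
    | succ i ih =>
      have h1 := R.add_mem (hR _ ih) (R.smul_mem (i : E) h)
      have h2 : τ^[i + 1] c - c - ((i + 1 : ℕ) : E) • (τ c - c) =
          τ (τ^[i] c - c - (i : E) • (τ c - c)) + (i : E) • (τ (τ c - c) - (τ c - c)) := by
        rw [Function.iterate_succ_apply']
        simp only [map_sub, map_smul, Nat.cast_succ, add_smul, one_smul, smul_sub]
        abel
      rw [h2]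
      exact h1
  have h1 := key p
  rw [hc, sub_self, zero_sub, Submodule.neg_mem_iff] at h1
  have hp' : (p : E) ≠ 0 := Nat.cast_ne_zero.2 hp
  have h2 := R.smul_mem ((p : E)⁻¹) h1
  rwa [smul_smul, inv_mul_cancel₀ hp', one_smul] at h2

end ATRV

theorem t_ATRV : M_ATRV := by
  intro hrot k T E _ _ _ _ _ p hp _ g n c h
  obtain ⟨h1, h2, _⟩ := hrot k T E p g n
  exact ATRV.lin_alg (prot E g) (rat k (QP p T g) E n) (fun x hx => (h2 x).2 hx) c p
    (hp.out.ne_zero) (h1 c) h

end ASC
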