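import Pool.Agent.ASC.Stmts
import Pool.Agent.CUB.B_TWO

/-!
# ASC, module ATWO: the split cover
-/

set_option autoImplicit false

open Polynomial

namespace ASC

open CUB CUB.TWO

namespace ATWO

/-- the roots of `x ^ p = x` in a domain of characteristic `p` -/
lemma root_range {D : Type} [CommRing D] [IsDomain D] (p : ℕ) [Fact p.Prime] [CharP D p] (x : D)
    (h : x ^ p = x) : ∃ i < p, x = (i : D) := by
  classical
  have hp : 1 < p := (Fact.out : p.Prime).one_lt
  obtain ⟨f, hf⟩ : ∃ f : D[X], f = X ^ p - X := ⟨_, rfl⟩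
  have hdeg : f.natDegree ≤ p := by
    rw [hf]
    refine (natDegree_sub_le _ _).trans (max_le ?_ ?_)
    · exact natDegree_X_pow_le p
    · exact natDegree_X_le.trans hp.le
  have hne : f ≠ 0 := by
    intro h0
    have h1 : f.coeff p = 1 := by
      rw [hf, coeff_sub, coeff_X_pow_self, coeff_X, if_neg (by omega), sub_zero]
    rw [h0, coeff_zero] at h1
    exact zero_ne_one h1
  have hroot : ∀ a : D, a ^ p = a → a ∈ f.roots.toFinset := by
    intro a ha
    rw [Multiset.mem_toFinset, mem_roots hne, hf, IsRoot.def, eval_sub, eval_pow, eval_X, ha,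
      sub_self]
  have hinj : Set.InjOn (Nat.cast : ℕ → D) (Finset.range p : Set ℕ) := by
    intro a ha b hb hab
    rw [Finset.mem_coe, Finset.mem_range] at ha hb
    exact CharP.natCast_injOn_Iio D p ha hb hab
  have hcard : ((Finset.range p).image (Nat.cast : ℕ → D)).card = p := by
    rw [Finset.card_image_of_injOn hinj, Finset.card_range]
  have hsub : (Finset.range p).image (Nat.cast : ℕ → D) ⊆ f.roots.toFinset := by
    intro a ha
    rw [Finset.mem_image] at ha
    obtain ⟨i, _, rfl⟩ := ha
    apply hroot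
    have h2 := map_natCast (frobenius D p) i
    rwa [frobenius_def] at h2
  have heq := Finset.eq_of_subset_of_card_le hsub (by
    rw [hcard]
    exact (Multiset.toFinset_card_le _).trans ((card_roots' f).trans hdeg))
  have hx := hroot x h
  rw [← heq, Finset.mem_image] at hx
  obtain ⟨i, hi, hix⟩ := hx
  exact ⟨i, Finset.mem_range.1 hi, hix.symm⟩

section Ker

variable {k T : Type} [Field k] [CommRing T] [Algebra k T] {p : ℕ} {G : T}

lemma ker_sgp (v : T) (hv : v ^ p - v = G) : RingHom.ker (sgp (k := k) v hv).toRingHom =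
    Ideal.span {yp p G - algebraMap T (QP p T G) v} := by
  apply le_antisymm
  · intro x hx
    have hx' : sgp (k := k) v hv x = 0 := hx
    obtain ⟨P, rfl⟩ := P_poly x
    obtain ⟨q, hq⟩ := X_sub_C_dvd_sub_C_eval (a := v) (p := P)
    have h3 : P = (X - C v) * q + C (P.eval v) := by
      rw [← hq]
      ring
    have h2 : aeval (yp p G) P = (yp p G - algebraMap T (QP p T G) v) * aeval (yp p G) q +
        algebraMap T (QP p T G) (P.eval v) := by
      conv_lhs => rw [h3]
      rw [map_add, map_mul, map_sub, aeval_X, aeval_C, aeval_C]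
    rw [h2, map_add, map_mul, map_sub, sgp_yp, sgp_algebraMap, sub_self, zero_mul, zero_add,
      sgp_algebraMap] at hx'
    rw [h2, hx', map_zero, add_zero]
    exact Ideal.mem_span_singleton.2 (dvd_mul_right _ _)
  · rw [Ideal.span_le]
    intro x hx
    rw [Set.mem_singleton_iff] at hx
    rw [hx]
    have h : sgp (k := k) v hv (yp p G - algebraMap T (QP p T G) v) = 0 := by
      rw [map_sub, sgp_yp, sgp_algebraMap, sub_self]
    exact h

lemma ker_le (v : T) (hv : v ^ p - v = G) (P : Ideal (QP p T G)) :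
    RingHom.ker (sgp (k := k) v hv).toRingHom ≤ P ↔ yp p G - algebraMap T (QP p T G) v ∈ P := by
  rw [ker_sgp, Ideal.span_singleton_le_iff_mem]

lemma pow_pred {R : Type} [CommRing R] (z : R) (p : ℕ) (hp : 2 ≤ p) (hz : z ^ p = z) :
    z ^ (p - 1) * z ^ (p - 1) = z ^ (p - 1) := by
  calc z ^ (p - 1) * z ^ (p - 1) = z ^ p * z ^ (p - 2) := by
        rw [← pow_add, ← pow_add]
        congr 1
        omega
    _ = z * z ^ (p - 2) := by rw [hz]
    _ = z ^ (p - 1) := by
        rw [← pow_succ']
        congr 1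
        omega

include k in
lemma root_eq [Fact p.Prime] [CharP k p] (v : T) (hv : v ^ p - v = G) :
    (yp p G - algebraMap T (QP p T G) v) ^ p = yp p G - algebraMap T (QP p T G) v := by
  have h1 := yp_eq (p := p) G
  have h2 : algebraMap T (QP p T G) G = algebraMap T (QP p T G) v ^ p -
      algebraMap T (QP p T G) v := by
    rw [← map_pow, ← map_sub, hv]
  rw [sub_pow_p k p]
  rw [h2] at h1
  linear_combination h1

lemma good_sgp [Fact p.Prime] [CharP k p] (hG : S_GLO) [Algebra.FiniteType k T] (v : T)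
    (hv : v ^ p - v = G) : Good k 0 (sgp (k := k) v hv) := by
  have hp : 2 ≤ p := (Fact.out : p.Prime).two_le
  have hz := root_eq (k := k) v hv
  have hk := ker_sgp (k := k) v hv
  have hs : sgp (k := k) v hv (yp p G - algebraMap T (QP p T G) v) = 0 := by
    rw [map_sub, sgp_yp, sgp_algebraMap, sub_self]
  generalize hzz : yp p G - algebraMap T (QP p T G) v = z at *
  have hid := pow_pred z p hp hz
  refine hG k (QP p T G) T (sgp (k := k) v hv) (1 - z ^ (p - 1)) ?_
  let _ := (sgp (k := k) v hv).toRingHom.toAlgebra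
  refine IsLocalization.away_of_isIdempotentElem (IsIdempotentElem.one_sub hid) ?_
    (sgp_surjective v hv)
  refine hk.trans ?_
  rw [sub_sub_cancel]
  apply le_antisymm
  · rw [Ideal.span_singleton_le_span_singleton]
    refine ⟨z, ?_⟩
    rw [← pow_succ, Nat.sub_add_cancel (by omega), hz]
  · rw [Ideal.span_singleton_le_span_singleton]
    exact dvd_pow_self z (by omega)

end Ker

section Prime

variable {k T : Type} [Field k] [CommRing T] [Algebra k T] {p : ℕ} [Fact p.Prime] [CharP k p]
  {G : T}

/-- every prime lies on exactly one sheet -/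
lemma sheet (v : T) (w : ℕ → T) (hvw : ∀ i, w i = v + i) (hw : ∀ i, (w i) ^ p - w i = G)
    (P : PrimeSpectrum (QP p T G)) :
    ∃ i < p, RingHom.ker (sgp (k := k) (w i) (hw i)).toRingHom ≤ P.asIdeal ∧
      ∀ j < p, j ≠ i → ¬ RingHom.ker (sgp (k := k) (w j) (hw j)).toRingHom ≤ P.asIdeal := by
  have hv : v ^ p - v = G := by
    have h := hw 0
    rwa [hvw 0, Nat.cast_zero, add_zero] at h
  have hz := root_eq (k := k) v hv
  have hch : CharP (QP p T G ⧸ P.asIdeal) p :=
    charP_of_injective_algebraMap (algebraMap k (QP p T G ⧸ P.asIdeal)).injective p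
  obtain ⟨i, hi, hx⟩ := root_range p
    (Ideal.Quotient.mk P.asIdeal (yp p G - algebraMap T (QP p T G) v)) (by
      rw [← map_pow, hz])
  have hmem : ∀ j : ℕ, RingHom.ker (sgp (k := k) (w j) (hw j)).toRingHom ≤ P.asIdeal ↔
      ((i : ℕ) : QP p T G ⧸ P.asIdeal) = j := by
    intro j
    rw [ker_le, hvw j, ← Ideal.Quotient.eq_zero_iff_mem, ← hx,
      ← sub_eq_zero (b := ((j : ℕ) : QP p T G ⧸ P.asIdeal))]
    have h1 : yp p G - algebraMap T (QP p T G) (v + j) =
        (yp p G - algebraMap T (QP p T G) v) - (j : QP p T G) := by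
      rw [map_add, map_natCast]
      ring
    rw [h1, map_sub, map_natCast]
  refine ⟨i, hi, (hmem i).2 rfl, fun j hj hne h => hne ?_⟩
  exact (CharP.natCast_injOn_Iio (QP p T G ⧸ P.asIdeal) p hi hj ((hmem j).1 h)).symm

end Prime

end ATWO

open ATWO

theorem t_ATWO : M_ATWO := by
  intro hG k T E _ _ _ _ _ p _ _ G v hv
  refine ⟨good_sgp hG v hv, ?_, ?_, ?_⟩
  · intro n c w hvw hw c' hc
    ext P
    rw [Finsupp.finsetSum_apply]
    obtain ⟨i, hi, h1, h2⟩ := sheet (k := k) v w hvw hw P.1
    rw [Finset.sum_eq_single i]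
    · obtain ⟨P', hP⟩ := (mem_range_iff (sgp (k := k) (w i) (hw i))
        (sgp_surjective (w i) (hw i)) n P).2 h1
      rw [← hP, push_apply]
      exact ((hc i hi P').1 ((rdim_comap _ (sgp_surjective (w i) (hw i)) P'.1).trans P'.2)).symm
    · intro j hj hne
      exact push_zero _ _ _ _ (h2 j (Finset.mem_range.1 hj) hne)
    · intro h
      exact absurd (Finset.mem_range.2 hi) h
  · intro n c₀ P
    have hd : rdim k (PrimeSpectrum.comap (sgp (k := k) v hv).toRingHom P.1) = n :=
      (rdim_comap _ (sgp_surjective v hv) P.1).trans P.2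
    refine ⟨fun h => ?_, fun h => absurd hd h⟩
    exact (push_apply (sgp (k := k) v hv) (sgp_surjective v hv) c₀ P).symm
  · intro n w hw c₁ hunit P
    have hd : rdim k (PrimeSpectrum.comap (sgp (k := k) v hv).toRingHom P.1) = n :=
      (rdim_comap _ (sgp_surjective v hv) P.1).trans P.2
    refine ⟨fun h => ?_, fun h => absurd hd h⟩
    have h2 : push E (sgp (k := k) w hw) (sgp_surjective w hw) c₁
        (pushP (n := n) (sgp (k := k) v hv) (sgp_surjective v hv) P) = 0 := by
      apply push_zero
      intro h3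
      have h4 := (mem_range_iff (sgp (k := k) v hv) (sgp_surjective v hv) n _).1 ⟨P, rfl⟩
      rw [ker_le] at h3 h4
      have h5 := Ideal.sub_mem _ h3 h4
      rw [sub_sub_sub_cancel_left, ← map_sub] at h5
      exact (pushP (n := n) (sgp (k := k) v hv) (sgp_surjective v hv) P).1.2.ne_top
        (Ideal.eq_top_of_isUnit_mem _ h5 (hunit.map (algebraMap T (QP p T G))))
    exact h2.symm

end ASC
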