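import Pool.Agent.CUB.Asm
import Pool.Agent.ASC.ACHI
import Pool.Agent.ASC.ACHV
import Pool.Agent.ASC.ACH2
import Pool.Agent.ASC.ADLG
import Pool.Agent.ASC.ADL1
import Pool.Agent.ASC.ADEL
import Pool.Agent.ASC.ATWO
import Pool.Agent.ASC.AKER
import Pool.Agent.ASC.AGET
import Pool.Agent.ASC.AETA
import Pool.Agent.ASC.AOM
import Pool.Agent.ASC.AROT
import Pool.Agent.ASC.ATRV
import Pool.Agent.ASC.AISO
import Pool.Agent.ASC.AST
import Pool.Agent.ASC.AE1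
import Pool.Agent.ASC.ASX

/-!
# ASC: assembly
-/

set_option autoImplicit false

namespace ASC

open CUB CUB.Asm

theorem s_ACHI : S_ACHI := t_ACHI s_GLI

theorem s_ACHV : S_ACHV := t_ACHV

theorem s_ACH2 : S_ACH2 := t_ACH2 s_PBC s_PLIN

theorem s_ADLG : S_ADLG := t_ADLG s_R s_FPD s_ACHI s_ACHV

theorem s_ADL1 : S_ADL1 := t_ADL1 s_FPX s_FP s_PLIN s_ACHI s_B1 s_BLIN s_B3 s_ADLG

theorem s_ADEL : S_ADEL := t_ADEL s_PUSH s_PLIN s_ACH2 s_B4 s_BPU s_ADL1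

theorem s_ATWO : S_ATWO := t_ATWO s_GLO

theorem s_AKER : S_AKER := t_AKER

theorem s_AGET : S_AGET := t_AGET

theorem s_AETA : S_AETA := t_AETA s_AGET s_GCO

theorem s_AOM : S_AOM := t_AOM

theorem s_AROT : S_AROT := t_AROT s_PCO s_PLIN

theorem s_ATRV : S_ATRV := t_ATRV s_AROT

theorem s_AISO : S_AISO := t_AISO s_PCO s_AROT

theorem s_AST : S_AST := t_AST s_FP s_FPX s_PBC s_PLIN s_GCO s_PCO s_L0 s_B1 s_BLIN s_BINJ s_ADEL
  s_ATWO s_AKER s_AETA s_AOM s_AROT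

theorem s_AE1 : S_AE1 := t_AE1 s_FPX s_GX s_PLIN s_GCO s_PCO s_B2 s_B3 s_AST s_ATRV s_AOM s_AROT

theorem s_ASX : S_ASX := t_ASX s_FP s_PLIN s_PCO s_ATWO s_AROT s_AISO s_AE1

end ASC
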