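import Pool.Agent.CUB.StmtsC

/-!
# ASC: Artin-Schreier covers with `p` sheets (definitions)

`k` is a field of characteristic `p`, `QP p T g = T[y] / (y ^ p - y - g)`, `yp p g` is `y`; `rot` is the automorphism `y ↦ y + 1`;
`YP p G f = QP p R[X] (C G + X * C f)`; `shp` is a sheet over `f = 0`, `chp` a chart.  Compare `Pool/Agent/CUB/Defs.lean` and `Defs3.lean`
(the double covers `y ^ 2 - y = g`).
-/

set_option autoImplicit false

open Polynomial

namespace ASC

open CUB

/-! ## 0. Frobenius -/

section Frob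

variable (k : Type) [Field k] (p : ℕ) [Fact p.Prime] [CharP k p] {T : Type} [CommRing T]
  [Algebra k T]

include k in
lemma add_pow_p (x y : T) : (x + y) ^ p = x ^ p + y ^ p := by
  rcases subsingleton_or_nontrivial T with h | h
  · exact Subsingleton.elim _ _
  · have : CharP T p := charP_of_injective_algebraMap (algebraMap k T).injective p
    exact add_pow_char x y p

include k in
lemma sub_pow_p (x y : T) : (x - y) ^ p = x ^ p - y ^ p := by
  rcases subsingleton_or_nontrivial T with h | h
  · exact Subsingleton.elim _ _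
  · have : CharP T p := charP_of_injective_algebraMap (algebraMap k T).injective p
    exact sub_pow_char x y

include k in
lemma natCast_pow_p (c : ℕ) : (c : T) ^ p = c := by
  rcases subsingleton_or_nontrivial T with h | h
  · exact Subsingleton.elim _ _
  · have : CharP T p := charP_of_injective_algebraMap (algebraMap k T).injective p
    have h2 := map_natCast (frobenius T p) c
    rwa [frobenius_def] at h2

end Frob

/-! ## 1. The covers -/

section Cover

variable {k : Type} [Field k] {p : ℕ}

/-- The polynomial `y ^ p - y - g`. -/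
noncomputable def apPoly (p : ℕ) {T : Type} [CommRing T] (g : T) : T[X] := X ^ p - X - C g

/-- The cover `T[y] / (y ^ p - y - g)`. -/
abbrev QP (p : ℕ) (T : Type) [CommRing T] (g : T) : Type := AdjoinRoot (apPoly p g)

/-- The element `y` of `T[y] / (y ^ p - y - g)`. -/
noncomputable def yp (p : ℕ) {T : Type} [CommRing T] (g : T) : QP p T g :=
  AdjoinRoot.root (apPoly p g)

lemma apPoly_monic [Fact p.Prime] {T : Type} [CommRing T] (g : T) : (apPoly p g).Monic := by
  unfold apPoly
  have hp : 1 < p := (Fact.out : p.Prime).one_lt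
  have h : (X : T[X]) ^ p - X - C g = X ^ p + (- X - C g) := by ring
  rw [h]
  apply monic_X_pow_add
  refine lt_of_le_of_lt (degree_sub_le _ _) (max_lt ?_ ?_)
  · rw [degree_neg]
    exact lt_of_le_of_lt degree_X_le (by exact_mod_cast hp)
  · exact lt_of_le_of_lt degree_C_le (by exact_mod_cast (lt_trans zero_lt_one hp))

lemma eval_apPoly {T S : Type} [CommRing T] [CommRing S] (φ : T →+* S) (g : T) (x : S) :
    (apPoly p g).eval₂ φ x = x ^ p - x - φ g := by
  simp [apPoly]

lemma yp_eq {T : Type} [CommRing T] (g : T) :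
    yp p g ^ p - yp p g - algebraMap T (QP p T g) g = 0 := by
  have h := AdjoinRoot.eval₂_root (apPoly p g)
  rw [eval_apPoly] at h
  exact h

instance finite_QP [Fact p.Prime] {T : Type} [CommRing T] (g : T) : Module.Finite T (QP p T g) :=
  (apPoly_monic g).finite_adjoinRoot

instance free_QP [Fact p.Prime] {T : Type} [CommRing T] (g : T) : Module.Free T (QP p T g) :=
  (apPoly_monic g).free_adjoinRoot

instance finiteType_QP [Fact p.Prime] {T : Type} [CommRing T] [Algebra k T]
    [Algebra.FiniteType k T] (g : T) : Algebra.FiniteType k (QP p T g) :=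
  Algebra.FiniteType.trans (S := T) inferInstance inferInstance

/-- The homomorphism from the cover defined by a homomorphism on the base and the image of `y`. -/
noncomputable def Plift {T S : Type} [CommRing T] [CommRing S] [Algebra k T] [Algebra k S] {g : T}
    (φ : T →ₐ[k] S) (x : S) (h : x ^ p - x = φ g) : QP p T g →ₐ[k] S :=
  AdjoinRoot.liftAlgHom (apPoly p g) φ x (by
    have := eval_apPoly (p := p) φ.toRingHom g x
    refine this.trans ?_
    rw [h]
    exact sub_self _)

@[simp] lemma Plift_yp {T S : Type} [CommRing T] [CommRing S] [Algebra k T] [Algebra k S] {g : T}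
    (φ : T →ₐ[k] S) (x : S) (h : x ^ p - x = φ g) : Plift φ x h (yp p g) = x :=
  AdjoinRoot.liftAlgHom_root _ _ _ _

@[simp] lemma Plift_algebraMap {T S : Type} [CommRing T] [CommRing S] [Algebra k T] [Algebra k S]
    {g : T} (φ : T →ₐ[k] S) (x : S) (h : x ^ p - x = φ g) (t : T) :
    Plift φ x h (algebraMap T (QP p T g) t) = φ t :=
  AdjoinRoot.liftAlgHom_of _ _ _ _ _

/-- Two homomorphisms on the cover are equal if they agree on the base and at `y`. -/
lemma P_ext {T S : Type} [CommRing T] [CommRing S] [Algebra k T] [Algebra k S] {g : T}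
    {α β : QP p T g →ₐ[k] S} (h1 : ∀ t, α (algebraMap T (QP p T g) t) =
      β (algebraMap T (QP p T g) t)) (h2 : α (yp p g) = β (yp p g)) : α = β := by
  apply AdjoinRoot.algHom_ext'
  · ext t
    exact h1 t
  · exact h2

variable (k p) in
/-- The base of the cover. -/
noncomputable def Pbase {T : Type} [CommRing T] [Algebra k T] (g : T) : T →ₐ[k] QP p T g :=
  IsScalarTower.toAlgHom k T (QP p T g)

lemma Pbase_apply {T : Type} [CommRing T] [Algebra k T] (g t : T) :
    Pbase k p g t = algebraMap T (QP p T g) t := rfl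

/-- The homomorphism of covers defined by a homomorphism of the bases. -/
noncomputable def Pmap {T S : Type} [CommRing T] [CommRing S] [Algebra k T] [Algebra k S] {g : T}
    {g' : S} (φ : T →ₐ[k] S) (h : φ g = g') : QP p T g →ₐ[k] QP p S g' :=
  Plift ((Pbase k p g').comp φ) (yp p g') (by
    have h2 := yp_eq (p := p) g'
    have h3 : ((Pbase k p g').comp φ) g = algebraMap S (QP p S g') g' := by
      rw [← h]; rfl
    rw [h3]
    exact sub_eq_zero.mp h2)

@[simp] lemma Pmap_yp {T S : Type} [CommRing T] [CommRing S] [Algebra k T] [Algebra k S] {g : T}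
    {g' : S} (φ : T →ₐ[k] S) (h : φ g = g') : Pmap φ h (yp p g) = yp p g' := Plift_yp _ _ _

@[simp] lemma Pmap_algebraMap {T S : Type} [CommRing T] [CommRing S] [Algebra k T] [Algebra k S]
    {g : T} {g' : S} (φ : T →ₐ[k] S) (h : φ g = g') (t : T) :
    Pmap φ h (algebraMap T (QP p T g) t) = algebraMap S (QP p S g') (φ t) :=
  Plift_algebraMap _ _ _ _

/-- Every element of the cover is a polynomial in `y`. -/
lemma P_poly {T : Type} [CommRing T] {g : T} (x : QP p T g) :
    ∃ P : T[X], x = aeval (yp p g) P := by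
  obtain ⟨P, rfl⟩ := AdjoinRoot.mk_surjective (g := apPoly p g) x
  exact ⟨P, (AdjoinRoot.aeval_eq P).symm⟩

lemma Pmap_surjective {T S : Type} [CommRing T] [CommRing S] [Algebra k T] [Algebra k S] {g : T}
    {g' : S} (φ : T →ₐ[k] S) (h : φ g = g') (hφ : Function.Surjective φ) :
    Function.Surjective (Pmap (p := p) φ h) := by
  intro x
  obtain ⟨P, rfl⟩ := P_poly x
  induction P using Polynomial.induction_on' with
  | add P Q hP hQ =>
    obtain ⟨a, ha⟩ := hP
    obtain ⟨b, hb⟩ := hQ
    exact ⟨a + b, by rw [map_add, ha, hb, map_add]⟩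
  | monomial n s =>
    obtain ⟨t, rfl⟩ := hφ s
    refine ⟨algebraMap T _ t * yp p g ^ n, ?_⟩
    rw [map_mul, map_pow, Pmap_yp, Pmap_algebraMap, aeval_monomial]

end Cover

/-! ## 2. The automorphism `y ↦ y + 1` -/

section Rot

variable {k : Type} [Field k] {p : ℕ} [Fact p.Prime] [CharP k p] {T : Type} [CommRing T]
  [Algebra k T]

/-- The homomorphism `y ↦ y + 1`. -/
noncomputable def rotHom (g : T) : QP p T g →ₐ[k] QP p T g :=
  Plift (Pbase k p g) (yp p g + 1) (by
    have h := yp_eq (p := p) g
    rw [add_pow_p k p, one_pow, Pbase_apply]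
    linear_combination h)

/-- The homomorphism `y ↦ y - 1`. -/
noncomputable def rotInv (g : T) : QP p T g →ₐ[k] QP p T g :=
  Plift (Pbase k p g) (yp p g - 1) (by
    have h := yp_eq (p := p) g
    rw [sub_pow_p k p, one_pow, Pbase_apply]
    linear_combination h)

@[simp] lemma rotHom_yp (g : T) : rotHom (k := k) g (yp p g) = yp p g + 1 := Plift_yp _ _ _

@[simp] lemma rotHom_algebraMap (g t : T) :
    rotHom (k := k) g (algebraMap T (QP p T g) t) = algebraMap T (QP p T g) t :=
  Plift_algebraMap _ _ _ _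

@[simp] lemma rotInv_yp (g : T) : rotInv (k := k) g (yp p g) = yp p g - 1 := Plift_yp _ _ _

@[simp] lemma rotInv_algebraMap (g t : T) :
    rotInv (k := k) g (algebraMap T (QP p T g) t) = algebraMap T (QP p T g) t :=
  Plift_algebraMap _ _ _ _

/-- The automorphism `y ↦ y + 1` of the cover. -/
noncomputable def rot (g : T) : QP p T g ≃ₐ[k] QP p T g :=
  AlgEquiv.ofAlgHom (rotHom g) (rotInv g)
    (P_ext (fun t => by
      rw [AlgHom.comp_apply, rotInv_algebraMap, rotHom_algebraMap]; rfl) (by
      rw [AlgHom.comp_apply, rotInv_yp, map_sub, map_one, rotHom_yp, add_sub_cancel_right]; rfl))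
    (P_ext (fun t => by
      rw [AlgHom.comp_apply, rotHom_algebraMap, rotInv_algebraMap]; rfl) (by
      rw [AlgHom.comp_apply, rotHom_yp, map_add, map_one, rotInv_yp, sub_add_cancel]; rfl))

@[simp] lemma rot_yp (g : T) : rot (k := k) g (yp p g) = yp p g + 1 := rotHom_yp g

@[simp] lemma rot_algebraMap (g t : T) :
    rot (k := k) g (algebraMap T (QP p T g) t) = algebraMap T (QP p T g) t := rotHom_algebraMap g t

/-- The automorphism `y ↦ y + 1`, as a homomorphism. -/
noncomputable abbrev rotH (g : T) : QP p T g →ₐ[k] QP p T g := (rot (k := k) g).toAlgHom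

lemma rotH_surjective (g : T) : Function.Surjective (rotH (k := k) (p := p) g) :=
  (rot (k := k) g).surjective

/-- The action of the automorphism `y ↦ y + 1` on cycles. -/
noncomputable def prot (E : Type) [Field E] (g : T) {n : ℕ} :
    (RP k (QP p T g) n →₀ E) →ₗ[E] (RP k (QP p T g) n →₀ E) :=
  push E (rotH g) (rotH_surjective g)

variable (k p) in
/-- The automorphism `y ↦ y + 1` acts trivially on the cycles of dimension `n` modulo rational
equivalence. -/
def Triv (E : Type) [Field E] (n : ℕ) (g : T) : Prop :=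
  ∀ c : RP k (QP p T g) n →₀ E, prot E g c - c ∈ rat k (QP p T g) E n

end Rot

/-! ## 3. Sheets and charts -/

section Sheets

variable {k : Type} [Field k] {p : ℕ} [Fact p.Prime] [CharP k p] {T R R' : Type} [CommRing T]
  [Algebra k T] [CommRing R] [CommRing R'] [Algebra k R] [Algebra k R']

include k in
/-- The other roots. -/
lemma root_add {G v : T} (hv : v ^ p - v = G) (c : ℕ) : (v + c) ^ p - (v + c) = G := by
  rw [add_pow_p k p, natCast_pow_p k p, ← hv]
  ring

/-- The homomorphism `T[y] / (y ^ p - y - G) → T`, `y ↦ v`, where `v` is a root. -/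
noncomputable def sgp {G : T} (v : T) (hv : v ^ p - v = G) : QP p T G →ₐ[k] T :=
  Plift (AlgHom.id k T) v hv

omit [Fact p.Prime] [CharP k p] in
@[simp] lemma sgp_yp {G : T} (v : T) (hv : v ^ p - v = G) : sgp (k := k) v hv (yp p G) = v :=
  Plift_yp _ _ _

omit [Fact p.Prime] [CharP k p] in
@[simp] lemma sgp_algebraMap {G : T} (v : T) (hv : v ^ p - v = G) (t : T) :
    sgp (k := k) v hv (algebraMap T (QP p T G) t) = t := Plift_algebraMap _ _ _ _

omit [Fact p.Prime] [CharP k p] in
lemma sgp_surjective {G : T} (v : T) (hv : v ^ p - v = G) :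
    Function.Surjective (sgp (k := k) v hv) :=
  fun x => ⟨algebraMap T (QP p T G) x, sgp_algebraMap v hv x⟩

variable (p) in
/-- The ring `R[X][y] / (y ^ p - y - G - X f)`. -/
abbrev YP (G f : R) : Type := QP p R[X] (C G + X * C f)

/-- The homomorphism `R[X][y] / (y ^ p - y - G - X f) → R'[X]`, `y ↦ v`, if `f` maps to zero
in `R'` and `v ^ p - v = G` in `R'`. -/
noncomputable def shp {G f : R} (ψ : R →ₐ[k] R') (hf : ψ f = 0) (v : R') (hv : v ^ p - v = ψ G) :
    YP p G f →ₐ[k] R'[X] :=
  Plift (mapX ψ) (C v) (by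
    have h : mapX ψ (C G + X * C f) = C (ψ G) + X * C (ψ f) := by simp [mapX]
    rw [h, hf, ← hv]
    simp)

omit [Fact p.Prime] [CharP k p] in
@[simp] lemma shp_yp {G f : R} (ψ : R →ₐ[k] R') (hf : ψ f = 0) (v : R')
    (hv : v ^ p - v = ψ G) : shp ψ hf v hv (yp p (C G + X * C f)) = C v := Plift_yp _ _ _

omit [Fact p.Prime] [CharP k p] in
@[simp] lemma shp_algebraMap {G f : R} (ψ : R →ₐ[k] R') (hf : ψ f = 0) (v : R')
    (hv : v ^ p - v = ψ G) (P : R[X]) :
    shp ψ hf v hv (algebraMap R[X] (YP p G f) P) = mapX ψ P := Plift_algebraMap _ _ _ _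

omit [Fact p.Prime] [CharP k p] in
lemma shp_surjective {G f : R} (ψ : R →ₐ[k] R') (hψ : Function.Surjective ψ) (hf : ψ f = 0)
    (v : R') (hv : v ^ p - v = ψ G) : Function.Surjective (shp ψ hf v hv) := by
  intro x
  obtain ⟨P, rfl⟩ := mapX_surjective ψ hψ x
  exact ⟨_, shp_algebraMap ψ hf v hv P⟩

/-- The chart `Spec R[X] → Spec (R[X][y] / (y ^ p - y - G - X f))` defined by a root `v` of
`v ^ p - v = G`: `y ↦ v + X f` and `X ↦ X ^ p f ^ (p - 1) - X`. -/
noncomputable def chp {G f : R} (v : R) (hv : v ^ p - v = G) : YP p G f →ₐ[k] R[X] :=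
  Plift (evs (CC k R) (X ^ p * C (f ^ (p - 1)) - X)) (C v + X * C f) (by
    have hp : p - 1 + 1 = p := Nat.sub_add_cancel (Fact.out : p.Prime).one_lt.le
    have h : evs (CC k R) (X ^ p * C (f ^ (p - 1)) - X) (C G + X * C f) =
        C G + (X ^ p * C (f ^ (p - 1)) - X) * C f := by
      simp
      ring
    rw [h, ← hv, add_pow_p k p, mul_pow, ← C_pow, ← C_pow, C_sub, sub_mul, mul_assoc, ← C_mul,
      ← pow_succ, hp]
    ring)

@[simp] lemma chp_yp {G f : R} (v : R) (hv : v ^ p - v = G) :
    chp (k := k) (f := f) v hv (yp p (C G + X * C f)) = C v + X * C f := Plift_yp _ _ _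

@[simp] lemma chp_algebraMap {G f : R} (v : R) (hv : v ^ p - v = G) (P : R[X]) :
    chp (k := k) (f := f) v hv (algebraMap R[X] (YP p G f) P) =
      evs (CC k R) (X ^ p * C (f ^ (p - 1)) - X) P := Plift_algebraMap _ _ _ _

variable (p) in
/-- The map of covers `y ^ p - y = G + X f` defined by `R → R'`. -/
noncomputable def YPmap (G f : R) (ψ : R →ₐ[k] R') : YP p G f →ₐ[k] YP p (ψ G) (ψ f) :=
  Pmap (mapX ψ) (by simp [mapX])

omit [Fact p.Prime] [CharP k p] in
lemma YPmap_surjective (G f : R) (ψ : R →ₐ[k] R') (hψ : Function.Surjective ψ) :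
    Function.Surjective (YPmap p G f ψ) := Pmap_surjective _ _ (mapX_surjective ψ hψ)

end Sheets

end ASC
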