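import Pool.Agent.ASC.Defs

/-!
# ASC: Artin-Schreier covers with `p` sheets (statements)

Module `X` proves `theorem t_X : M_X` (or `t_X : S_X` if there is no `M_X`) in the namespace `ASC`, in the file
`Pool/Agent/ASC/X.lean`, importing this file.  The hypotheses of `M_X` are statements of other modules; the statements `S_...` of `CUB`
(`S_GLI`, `S_FP`, `S_DEL`, ...) are proved in `Pool/Agent/CUB`.  Every module has a TEMPLATE in `Pool/Agent/CUB` (the case of the double covers
`y ^ 2 - y = g`), named in the doc-string: copy and adapt.  Here everything is simpler: the derivative of `y ^ p - y` is `-1`, so that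
no localisation away from `2 y - 1` is needed, and the roots are `v, v + 1, ..., v + (p - 1)`.
-/

set_option autoImplicit false

open Polynomial

namespace ASC

open CUB

/-! ## 1. The charts -/

/-- ACHI (template `C_CHI.lean`). `χ = chp v hv` is `Good 0`. By S_GLI it is enough to find for every prime `P` of `R[X]` an element `b` of `Y = YP p G f` with `χ b ∉ P` such that `Y[1/b] → R[X][1/χ b]` is bijective. If `f ∉ P`: `b = f` (the image of `C f`): the inverse maps `X` to `(y - v) / f` (in `Y`: `(y - v)^p - (y - v) = X f`). If `f ∈ P`: `b = (y - v)^(p-1) - 1`, `χ b = (X f)^(p-1) - 1 ∉ P`;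
the inverse maps `X` to `X / b` [check: `χ(X) / χ(b) = (X^p f^(p-1) - X) / (X^(p-1) f^(p-1) - 1) = X`; `X f = (y - v) b` in `Y`, so `y ↦ v + X f ↦ v + (X / b) f = y`, and `X ↦ X^p f^(p-1) - X ↦ (X / b) ((X f / b)^(p-1) - 1) = (X / b) ((y - v)^(p-1) - 1) = X`]. -/
def S_ACHI : Prop := ∀ (k R : Type) [Field k] [CommRing R] [Algebra k R] [Algebra.FiniteType k R]
  (p : ℕ) [Fact p.Prime] [CharP k p] (G f v : R) (hv : v ^ p - v = G),
  Good k 0 (chp (k := k) (f := f) v hv)

def M_ACHI : Prop := S_GLI → S_ACHI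

/-- ACHV (template `C_CHIV.lean`). `κ : Y → K` a homomorphism to a field with `κ f ≠ 0`, `θ = κ` restricted to `R`, `s = (κ y - θ v) / θ f`. (1) `evs θ s ∘ χ = κ`: `P_ext`; on `y`: `θ v + s θ f = κ y`; on `X`: `s^p (θ f)^(p-1) - s = ((κ y - θ v)^p - (κ y - θ v)) / θ f = κ X`, as `(y - v)^p - (y - v) = y^p - y - G = X f`. (2) Let `P` be a prime of `R[X]` with `χ⁻¹ P = ker κ`; so `f ∉ P`. For
`g = ∑ g_i X^i` of degree at most `N` let `g' = ∑ g_i f^(N - i) (y - v)^i ∈ Y`; since `χ (y - v) = X f` we have `χ g' = f^N g`. So `g ∈ P` iff `g' ∈ ker κ`, and the same for the prime `ker (evs θ s)` by (1). -/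
def S_ACHV : Prop := ∀ (k R K : Type) [Field k] [CommRing R] [Algebra k R] [Field K]
  [Algebra k K] (p : ℕ) [Fact p.Prime] [CharP k p] (G f v : R) (hv : v ^ p - v = G)
  (κ : YP p G f →ₐ[k] K) (θ : R →ₐ[k] K),
  (∀ r, θ r = κ (algebraMap R[X] (YP p G f) (C r))) → θ f ≠ 0 →
  (evs θ ((κ (yp p (C G + X * C f)) - θ v) / θ f)).comp (chp (k := k) (f := f) v hv) = κ ∧
  ∀ P : Ideal R[X], P.IsPrime → P.comap (chp (k := k) (f := f) v hv).toRingHom =
    RingHom.ker κ.toRingHom →
    P = RingHom.ker (evs θ ((κ (yp p (C G + X * C f)) - θ v) / θ f)).toRingHom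

/-- ACH2 (template `C_CHI2.lean`). `ψ : R → R'` is surjective with kernel `(f)`, `χ = chp v`. (1) The kernel of the sheet `shp ψ (ψ v) : Y → R'[X]` is generated by `f` and `y - v`, `χ` maps it to `(f, X f) = (f)`, and `R[X] / (f) = R'[X]`; the induced homomorphism `R'[X] → R'[X]` is `X ↦ X^p f^(p-1) - X = - X` mod `f` (as `p - 1 ≥ 1`), that is `muH (-1)`. S_PBC. (2) The kernel of the sheet `shp ψ w'` contains `f` and `y - w` for a lift
`w ∈ R` of `w'`, whose images under `χ` are `f` and `v - w + X f`, and `v - w` is a unit modulo `f`, so they generate the unit ideal: no prime of `R[X]` lies over a prime containing the kernel, and the pull-back is `0`. -/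
def S_ACH2 : Prop := ∀ (k R R' E : Type) [Field k] [CommRing R] [Algebra k R]
  [CommRing R'] [Algebra k R'] [Algebra.FiniteType k R] [Field E]
  (p : ℕ) [Fact p.Prime] [CharP k p] (G f v : R) (hv : v ^ p - v = G)
  (ψ : R →ₐ[k] R') (hψ : Function.Surjective ψ) (hf : ψ f = 0),
  RingHom.ker ψ.toRingHom = Ideal.span {f} → ∀ (n : ℕ),
  (∀ (h0 : (ψ v) ^ p - ψ v = ψ G) (c₀ d : RP k R'[X] n →₀ E), IsPull k E 0 (muH (-1)) c₀ d →
    IsPull k E 0 (chp (k := k) (f := f) v hv)
      (push E (shp ψ hf (ψ v) h0) (shp_surjective ψ hψ hf _ h0) c₀)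
      (push E (mapX ψ) (mapX_surjective ψ hψ) d)) ∧
  (∀ (w' : R') (hw : w' ^ p - w' = ψ G) (c₁ : RP k R'[X] n →₀ E), IsUnit (w' - ψ v) →
    IsPull k E 0 (chp (k := k) (f := f) v hv)
      (push E (shp ψ hf w' hw) (shp_surjective ψ hψ hf _ hw) c₁) 0)

def M_ACH2 : Prop := S_PBC → S_PLIN → S_ACH2

/-- ADLG (template `C_DLG.lean`). The case of a generator not contained in `f = 0`, for two roots `v, w`. `q` is a prime of `Y = YP p G f` of dimension `n + 2`, `f ∉ q`, `c` the divisor of `a` on `V(q)`. Let `K` be the fraction field of `Y / q`, `κ : Y → K`, `θ : R → K`, `s₀ = (κ y - θ v) / θ f`, `s₁ = (κ y - θ w) / θ f = s₀ - θ (w - v) / θ f`. By S_ACHV (for `v` and `w`) and S_FPD (for the charts, `Good 0` by S_ACHI) the prime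
`q_ε = ker (evs θ s_ε)` is the only prime of `R[X]` over `q`; its dimension is `n + 2`, and `e_ε`, the pull-back of `c`, is the divisor of `χ_ε a` on `V(q_ε)`. `evs θ s_ε (χ_ε a) = κ a ≠ 0`. Every element of `K` is a quotient of elements of `κ(Y) ⊆ evs θ s_ε (R[X])`. Take `D` from S_R (for `θ : R → K`): `d_ε = ∑_{O ∈ VV n θ s_ε} D O (κ a) s_ε⁻¹`. Let `O ∈ VV n θ s₀` with `(θ f)⁻¹ ∈ O`. Then `w₁ = - θ (w - v) / θ f ∈ O`,
so `s₁ = s₀ + w₁ ∉ O`, `O ∈ VV n θ s₁`, and `s₁⁻¹ / s₀⁻¹ - 1 = s₀ / s₁ - 1 = - w₁ / s₁`, which is zero or its inverse is not in `O`. So `D O (κ a) s₀⁻¹ = D O (κ a) s₁⁻¹`. Symmetrically for `O ∈ VV n θ s₁`. So `d₀ - d₁` is a sum of terms `D O ..` with `(θ f)⁻¹ ∉ O`, which are in `ratOn (f)` by the first property of `D` (`I = (f)`). -/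
def S_ADLG : Prop := ∀ (k R E : Type) [Field k] [PerfectField k] [CommRing R] [Algebra k R]
  [Algebra.FiniteType k R] [Field E] (p : ℕ) [Fact p.Prime] [CharP k p] (G f v w : R)
  (hv : v ^ p - v = G) (hw : w ^ p - w = G) (n : ℕ) (q : RP k (YP p G f) (n + 1 + 1))
  (a : YP p G f) (c : RP k (YP p G f) (n + 1) →₀ E)
  (e₀ e₁ : RP k R[X] (n + 1) →₀ E) (d₀ d₁ : RP k R n →₀ E),
  algebraMap R[X] (YP p G f) (C f) ∉ q.1.asIdeal → a ∉ q.1.asIdeal → IsDv k E q.1 a c →
  IsPull k E 0 (chp v hv) c e₀ → IsPull k E 0 (chp w hw) c e₁ →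
  IsBeta k E e₀ d₀ → IsBeta k E e₁ d₁ → d₀ - d₁ ∈ ratOn k E n (Ideal.span {f})

def M_ADLG : Prop := S_R → S_FPD → S_ACHI → S_ACHV → S_ADLG

/-- ADL1 (template `C_DL1.lean`). By linearity (span induction; pull-backs exist by S_FPX, specialisations by S_B1; S_PLIN, S_BLIN) we may assume that `c` is the divisor of `a` on `V(q)`. If `f ∉ q` use S_ADLG. If `f ∈ q` then `c ∈ ratOn (f)`, so its pull-backs are in `ratOn ((f) R[X])` (S_FP for the charts, the image of `f` is `C f`), and the specialisations are in `ratOn (f)` by S_B3 with `I = (f)`. -/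
def S_ADL1 : Prop := ∀ (k R E : Type) [Field k] [PerfectField k] [CommRing R] [Algebra k R]
  [Algebra.FiniteType k R] [Field E] (p : ℕ) [Fact p.Prime] [CharP k p] (G f v w : R)
  (hv : v ^ p - v = G) (hw : w ^ p - w = G) (n : ℕ) (c : RP k (YP p G f) (n + 1) →₀ E)
  (e₀ e₁ : RP k R[X] (n + 1) →₀ E) (d₀ d₁ : RP k R n →₀ E), c ∈ rat k (YP p G f) E (n + 1) →
  IsPull k E 0 (chp v hv) c e₀ → IsPull k E 0 (chp w hw) c e₁ →
  IsBeta k E e₀ d₀ → IsBeta k E e₁ d₁ → d₀ - d₁ ∈ ratOn k E n (Ideal.span {f})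

def M_ADL1 : Prop := S_FPX → S_FP → S_PLIN → S_ACHI → S_B1 → S_BLIN → S_B3 → S_ADLG → S_ADL1

/-- ADEL (template `C_DEL.lean`). `ψ : R → R'` surjective with kernel `(f)`, the roots of `G` in `R` are `v + i`, `i < p`, those in `R'` are `v' + i`, `v' = ψ v`; for `i ≠ j` both `< p` the difference `(v' + i) - (v' + j)` is a unit (the image of a nonzero element of `k`: `p` does not divide `i - j`). `c = ∑_{i < p} push (sheet i) (c i)`. By S_ACH2 for the chart of the root `v + i` (and S_PLIN) the pull-back of `c` is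
the push-forward along `mapX ψ` of the pull-back of `c i` along `muH (-1)` (which exists: S_PLIN (2)); its specialisation is `push ψ (d i)` by S_BPU and S_B4. So S_ADL1 for the roots `v + i`, `v + j` gives `push (d i - d j) ∈ ratOn (f) = ratOn (ker ψ)`, and `d i - d j ∈ rat` by S_PUSH (1) with `J = ⊥`. (The roots of `R'` in the sheets are written `w i` with `w i = v' + i`.) -/
def S_ADEL : Prop := ∀ (k R R' E : Type) [Field k] [PerfectField k] [CommRing R] [Algebra k R]
  [CommRing R'] [Algebra k R'] [Algebra.FiniteType k R] [Field E] (p : ℕ) [Fact p.Prime]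
  [CharP k p] (G f v : R) (_ : v ^ p - v = G) (ψ : R →ₐ[k] R') (hψ : Function.Surjective ψ)
  (hf : ψ f = 0), RingHom.ker ψ.toRingHom = Ideal.span {f} →
  ∀ (w : ℕ → R') (_ : ∀ i, w i = ψ v + i) (hw : ∀ i, (w i) ^ p - w i = ψ G) (n : ℕ)
  (c : ℕ → (RP k R'[X] (n + 1) →₀ E)) (d : ℕ → (RP k R' n →₀ E)),
  ∑ i ∈ Finset.range p, push E (shp ψ hf (w i) (hw i)) (shp_surjective ψ hψ hf _ (hw i)) (c i) ∈
    rat k (YP p G f) E (n + 1) →
  (∀ i < p, IsBeta k E (c i) (d i)) → ∀ i < p, ∀ j < p, d i - d j ∈ rat k R' E n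

def M_ADEL : Prop := S_PUSH → S_PLIN → S_ACH2 → S_B4 → S_BPU → S_ADL1 → S_ADEL

/-! ## 2. Split covers, kernels, etale base change -/

/-- ATWO (template `B_TWO.lean`). The split cover: `T`, `v ∈ T` with `v ^ p - v = G`. (1) `sgp v : QP p T G → T`, `y ↦ v`, is the localisation away from `b = (y - v)^(p-1) - 1`: it maps `b` to `-1`, its kernel is generated by `y - v`, and `(y - v) b = (y - v)^p - (y - v) = 0`. S_GLO. (2) `∏_{i < p} (y - v - i) = (y - v)^p - (y - v) = 0` in `QP p T G` (`∏ (Z - i) = Z^p - Z` over `F_p`), so a prime `P` of `QP p T G` contains `y - v - i` for some `i < p`,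
and only for one; it is the preimage of a prime of `T` of the same dimension under `sgp (v + i)`, and of none under `sgp (v + j)`, `j ≠ i`, `j < p`. So both sides have the same value at `P`. (3) the same for `c = push c₀`; (4) no prime of `T` lies under `sgp v` over a prime which contains the kernel of `sgp w` (that is `y - w`), as it would contain `v - w`. -/
def S_ATWO : Prop := ∀ (k T E : Type) [Field k] [CommRing T] [Algebra k T]
  [Algebra.FiniteType k T] [Field E] (p : ℕ) [Fact p.Prime] [CharP k p] (G v : T)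
  (hv : v ^ p - v = G), Good k 0 (sgp (k := k) v hv) ∧
  (∀ (n : ℕ) (c : RP k (QP p T G) n →₀ E) (w : ℕ → T) (_ : ∀ i, w i = v + i)
    (hw : ∀ i, (w i) ^ p - w i = G) (c' : ℕ → (RP k T n →₀ E)),
    (∀ i < p, IsPull k E 0 (sgp (w i) (hw i)) c (c' i)) →
    c = ∑ i ∈ Finset.range p, push E (sgp (w i) (hw i)) (sgp_surjective (w i) (hw i)) (c' i)) ∧
  (∀ (n : ℕ) (c₀ : RP k T n →₀ E),
    IsPull k E 0 (sgp v hv) (push E (sgp v hv) (sgp_surjective v hv) c₀) c₀) ∧
  (∀ (n : ℕ) (w : T) (hw : w ^ p - w = G) (c₁ : RP k T n →₀ E), IsUnit (v - w) →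
    IsPull k E 0 (sgp v hv) (push E (sgp w hw) (sgp_surjective w hw) c₁) 0)

def M_ATWO : Prop := S_GLO → S_ATWO

/-- AKER (template `B_KERQ.lean`). Kernels. An element of `QP p T g` is uniquely `∑_{i < p} a_i y^i`, `a_i ∈ T` (`AdjoinRoot.powerBasis'`, or `modByMonic`), and `Pmap φ h` maps it to `∑ φ(a_i) y^i`. (2) is (1) and `Polynomial.ker_mapRingHom`. -/
def S_AKER : Prop :=
  (∀ (k T S : Type) [Field k] [CommRing T] [CommRing S] [Algebra k T] [Algebra k S]
    (p : ℕ) [Fact p.Prime] [CharP k p] (g : T)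
    (g' : S) (φ : T →ₐ[k] S) (h : φ g = g'), RingHom.ker (Pmap (p := p) φ h).toRingHom =
      (RingHom.ker φ.toRingHom).map (algebraMap T (QP p T g))) ∧
  (∀ (k R S : Type) [Field k] [CommRing R] [CommRing S] [Algebra k R] [Algebra k S]
    (p : ℕ) [Fact p.Prime] [CharP k p]
    (G f : R) (ψ : R →ₐ[k] S), RingHom.ker (YPmap p G f ψ).toRingHom =
      (RingHom.ker ψ.toRingHom).map ((Pbase k p (C G + X * C f)).comp (CC k R)).toRingHom)

/-- AGET (template `A_GET.lean`). The cover is finite etale. `QP p T g` is free over `T`. For a prime `P` of it, `p₀ = P ∩ T`: `T / p₀ → QP / P` is integral, so the dimensions agree; over `κ(p₀)` the polynomial `y^p - y - g` has the derivative `-1`, so all its roots are simple, and `κ(p₀)[y] / (y^p - y - g)` localised at `P` is a field; so the maximal ideal of the localisation at `P` is generated by `p₀`. (Mathlib may have it: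
`Algebra.Etale`/`FormallyUnramified` of a standard etale algebra; the template does it by hand.) -/
def S_AGET : Prop := ∀ (k T : Type) [Field k] [CommRing T] [Algebra k T]
  [Algebra.FiniteType k T] (p : ℕ) [Fact p.Prime] [CharP k p] (g : T),
  Good k 0 (Pbase k p g)

/-- AETA (template `C_ETA.lean`). Base change to the cover `σ : S → T = QP p S G`. `Pmap (mapX σ) h : YP p G f → QP p T[X] g'` is `Good 0`: let `T₁ = YP p G f`, `g₁ ∈ T₁` the image of `G`. Let `e : QP p T₁ g₁ → QP p T[X] g'` be the homomorphism which is `Pmap (mapX σ) h` on `T₁` and maps `yp p g₁` to the image of `C (yp p G)`; it is an isomorphism: both rings are `S[X][y, z] / (y^p - y - G - X f, z^p - z - G)` (the inverse: on `T[X]`: `S → T₁`, `yp p G ↦ yp p g₁`,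
`X ↦ X`; `yp p g' ↦ y`). So `Pmap (mapX σ) h = e ∘ Pbase` is `Good 0` by S_AGET and S_GCO ((4): isomorphisms are `Good 0`, (1) composition). -/
def S_AETA : Prop := ∀ (k S : Type) [Field k] [CommRing S] [Algebra k S]
  [Algebra.FiniteType k S] (p : ℕ) [Fact p.Prime] [CharP k p] (G f : S)
  (g' : (QP p S G)[X]) (h : mapX (Pbase k p G) (C G + X * C f) = g'),
    Good k 0 (Pmap (p := p) (mapX (Pbase k p G)) h)

def M_AETA : Prop := S_AGET → S_GCO → S_AETA

/-- AOM. For `f = 0` the ring `YP p G f` is a polynomial ring over `QP p S G`: the homomorphism `shp (Pbase k p G) hf (yp p G) hv : YP p G f → (QP p S G)[X]`, `y ↦ C (yp p G)`, `X ↦ X`, is bijective (the inverse maps `yp p G` to `y`, `X` to `X`: an `evs` on a `Plift`). -/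
def S_AOM : Prop := ∀ (k S : Type) [Field k] [CommRing S] [Algebra k S]
  (p : ℕ) [Fact p.Prime] [CharP k p] (G f : S) (_ : f = 0) (hf : Pbase k p G f = 0)
  (hv : (yp p G) ^ p - yp p G = Pbase k p G G),
  Function.Bijective (shp (k := k) (Pbase k p G) hf (yp p G) hv)

/-! ## 3. The action of `y ↦ y + 1` -/

/-- AROT. (1) `prot` is a permutation action of order `p`: `rotH` composed `p` times is the identity (`y + p = y`; S_PCO (1), (2) for compositions). (2) it preserves `rat` (S_PCO (3)). (3) pull-back along the isomorphism `rotH` is the inverse of `prot` (S_PLIN (2)). (4) `prot` commutes with the push-forward along `Pmap` (S_PCO (1); `Pmap ∘ rotH = rotH ∘ Pmap` by `P_ext`). -/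
def S_AROT : Prop := ∀ (k T E : Type) [Field k] [CommRing T] [Algebra k T] [Field E]
  (p : ℕ) [Fact p.Prime] [CharP k p] (g : T) (n : ℕ),
  (∀ c : RP k (QP p T g) n →₀ E, (prot E g)^[p] c = c) ∧
  (∀ c : RP k (QP p T g) n →₀ E, prot E g c ∈ rat k (QP p T g) E n ↔
    c ∈ rat k (QP p T g) E n) ∧
  (∀ c : RP k (QP p T g) n →₀ E, IsPull k E 0 (rotH g) (prot E g c) c) ∧
  (∀ (S : Type) [CommRing S] [Algebra k S] (g' : S) (φ : T →ₐ[k] S) (h : φ g = g')
    (hφ : Function.Surjective φ) (c : RP k (QP p S g') n →₀ E),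
    push E (Pmap φ h) (Pmap_surjective φ h hφ) (prot E g' c) =
      prot E g (push E (Pmap φ h) (Pmap_surjective φ h hφ) c))

def M_AROT : Prop := S_PCO → S_PLIN → S_AROT

/-- ATRV. Let `τ = prot`. If `(τ - 1)^2 c ∈ rat` then `τ^i c = c + i (τ - 1) c` modulo `rat` for all `i` (induction, S_AROT (2)), so `c = τ^p c = c + p (τ - 1) c`, and `(τ - 1) c ∈ rat` since the characteristic of `E` is zero. -/
def S_ATRV : Prop := ∀ (k T E : Type) [Field k] [CommRing T] [Algebra k T] [Field E] [CharZero E]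
  (p : ℕ) [Fact p.Prime] [CharP k p] (g : T) (n : ℕ) (c : RP k (QP p T g) n →₀ E),
  prot E g (prot E g c - c) - (prot E g c - c) ∈ rat k (QP p T g) E n →
  prot E g c - c ∈ rat k (QP p T g) E n

def M_ATRV : Prop := S_AROT → S_ATRV

/-- AISO. `Triv` is invariant under isomorphisms `e : T ≃ T'`, `g' = e g` (push-forward along the isomorphism `Pmap e`; S_PCO (3), S_AROT (4); the push-forward along an isomorphism is surjective). -/
def S_AISO : Prop := ∀ (k T T' E : Type) [Field k] [CommRing T] [CommRing T'] [Algebra k T]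
  [Algebra k T'] [Field E] (p : ℕ) [Fact p.Prime] [CharP k p] (e : T ≃ₐ[k] T') (g : T) (n : ℕ),
  Triv k p E n (e g) → Triv k p E n g

def M_AISO : Prop := S_PCO → S_AROT → S_AISO

/-- AST (template `C_ST0A.lean`). The main step. `ψ : S → S'` surjective with kernel `(f)`, `D = YP p (ψ G) (ψ f)` (`ψ f = 0`), `c` a cycle of dimension `n` on `D` with `push (YPmap p G f ψ) c ∈ rat`. CLAIM: `prot c - c ∈ rat`. Let `T = QP p S G`, `T' = QP p S' (ψ G)`, `σ : S → T`, `σ' : S' → T'` the bases, `v = yp p G`, `v' = yp p (ψ G)`, `ψ' = Pmap ψ rfl : T → T'`, surjective with kernel generated by the image of `f` (S_AKER (1)), `ψ' v = v'`. The sheet `ω = shp σ' v' : D → T'[X]` is an isomorphism (S_AOM).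
If `n = 0`: all `0`-cycles on `T'[X]` are in `rat` (S_L0 (2)), so those on `D` are (S_PCO (3)). Let `n = j + 1`. The pull-back of `push (YPmap p G f ψ) c` along `Pmap (mapX σ) : YP p G f → QP p T[X] _` (`Good 0`, S_AETA) is in `rat` (S_FP), and by S_PBC (square: `YPmap p G f ψ`, `YPmap p (σ G) (σ f) ψ'`, base changes; kernels by S_AKER) it is the push-forward along `YPmap p (σ G) (σ f) ψ'` of the pull-back `c'` of `c` to
`D' = YP p (ψ' (σ G)) (ψ' (σ f))`, which is the split cover of `T'[X]` with the roots `C (v' + i)`. By S_ATWO (2) `c' = ∑_{i < p} push (sgp (C (v' + i))) (c i)`, where `c i` is the pull-back of `c'` along `sgp (C (v' + i))`, that is the pull-back of `c` along `D → D' → T'[X]`, which is `ω ∘ rotH^i` (`P_ext`), so `c i` is the pull-back along `ω` of `c_i := (prot⁻¹)^i c` (S_AROT (3), S_GCO (2), (3)). The push-forward of `c'` to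
`YP p (σ G) (σ f)` is the sum of the push-forwards of the `c i` along the sheets `shp ψ' (v' + i)` (S_PCO (1)), and it is in `rat`, so by S_ADEL (for the ring `T`, the root `v`; specialisations exist by S_B1) the specialisations of `c 0` and `c 1` are congruent modulo `rat T'`, so `c 0 - c 1 ∈ rat` by S_BINJ and S_BLIN. Hence `c - prot⁻¹ c ∈ rat D` (`ω` is an isomorphism), and `prot c - c ∈ rat` by S_AROT (2). -/
def S_AST : Prop := ∀ (k S S' E : Type) [Field k] [PerfectField k] [CommRing S]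
  [CommRing S'] [Algebra k S] [Algebra k S'] [Algebra.FiniteType k S] [Algebra.FiniteType k S']
  [Field E] (p : ℕ) [Fact p.Prime] [CharP k p] (G f : S) (ψ : S →ₐ[k] S')
  (hψ : Function.Surjective ψ), RingHom.ker ψ.toRingHom = Ideal.span {f} →
  ∀ (n : ℕ) (c : RP k (YP p (ψ G) (ψ f)) n →₀ E),
  push E (YPmap p G f ψ) (YPmap_surjective G f ψ hψ) c ∈ rat k (YP p G f) E n →
  prot E _ c - c ∈ rat k (YP p (ψ G) (ψ f)) E n

def M_AST : Prop := S_FP → S_FPX → S_PBC → S_PLIN → S_GCO → S_PCO → S_L0 → S_B1 → S_BLIN →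
  S_BINJ → S_ADEL → S_ATWO → S_AKER → S_AETA → S_AOM → S_AROT → S_AST

/-- AE1. One equation. `ψ : S → S'` surjective with kernel `(f)`. (i) `Triv (n + 1)` for `YP p (ψ G) (ψ f)`: let `b` be an `(n + 1)`-cycle on it; `push (YPmap ..) (prot b - b) = prot (push b) - push b ∈ rat` by hypothesis (S_AROT (4): `YPmap` is a `Pmap`), so S_AST for `prot b - b` and S_ATRV give `prot b - b ∈ rat`. (ii) Let `c` be an `n`-cycle on `T' = QP p S' (ψ G)`, `ĉ` its pull-back along `CC : T' → T'[X]` (S_FPX, S_GX (1)). Transport (i) to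
`T'[X]` along the isomorphism `ω` of S_AOM (`ω (rotH x) = mapX (rotH) (ω x)`): for all `(n+1)`-cycles on `T'[X]` the difference of the cycle and its image under `mapX (rotH)` is in `rat`. For `ĉ` this difference is the pull-back of `prot c - c` (or its negative; the pull-back commutes with the isomorphisms: S_PLIN, S_GCO), and it is in `rat`, so its specialisation `prot c - c` (S_B2) is in `rat` (S_B3 with `I = ⊥`). -/
def S_AE1 : Prop := ∀ (k S S' E : Type) [Field k] [PerfectField k] [CommRing S]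
  [CommRing S'] [Algebra k S] [Algebra k S'] [Algebra.FiniteType k S] [Algebra.FiniteType k S']
  [Field E] [CharZero E] (p : ℕ) [Fact p.Prime] [CharP k p] (G f : S) (ψ : S →ₐ[k] S'),
  Function.Surjective ψ → RingHom.ker ψ.toRingHom = Ideal.span {f} → ∀ n : ℕ,
  Triv k p E (n + 1) (C G + X * C f : S[X]) → Triv k p E n (ψ G)

def M_AE1 : Prop := S_FPX → S_GX → S_PLIN → S_GCO → S_PCO → S_B2 → S_B3 → S_AST → S_ATRV → S_AOM →
  S_AROT → S_AE1

/-- ASX. From the cover `y^p - y = ∑ t_j f_j` to the common zeros of the `f_j`. (i) `Triv k p E (l + r) (lin f)` holds, since all `(l + r)`-cycles are in `rat`. (ii) Induction on `r` (for all rings and `f`): `Triv k p E (l + r) (lin f) → Triv k p E l (0 : R')`. `r = 0`: `ψ` is an isomorphism, and `MvPolynomial (Fin 0) R ≃ R`, `lin f = 0`: S_AISO. `r + 1`: `MvPolynomial (Fin (r + 1)) R ≃ (MvPolynomial (Fin r) R)[X]` (`MvPolynomial.finSuccEquiv`), `lin f ↦ C (lin (f ∘ succ)) + X * C (C (f 0))`, S_AISO;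
S_AE1 for `S = MvPolynomial (Fin r) R`, `S' = MvPolynomial (Fin r) R₁`, `R₁ = R / (f 0)`, `mapAlgHom` (kernel generated by `C (f 0)`: `MvPolynomial.ker_map` or similar), gives `Triv k p E (l + r) (lin (f₁))`, `f₁` the images of `f ∘ succ` in `R₁`; `R'` is the quotient of `R₁` by the `f₁`. (iii) For `g = 0` in `R'` the cover is split, with the roots `0, 1, ..., p - 1`. Let `z` be an `l`-cycle on `R'`, `c = push (sgp 0) z`. `prot c = push (rotH ∘ ..) ..` is the push-forward of `z` along `sgp w`, where `w = 1` or `w = -1` (`sgp 0 ∘ rotH` is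
`sgp 1`, by `P_ext`; S_PCO (1)). So `push (sgp w) z - push (sgp 0) z ∈ rat`; its pull-back along `sgp 0` is `- z` (S_ATWO (3), (4), S_PLIN), so `z ∈ rat` by S_FP (`Good 0` by S_ATWO (1), `I = ⊥`). -/
def S_ASX : Prop := ∀ (k R R' E : Type) [Field k] [PerfectField k] [CommRing R]
  [CommRing R'] [Algebra k R] [Algebra k R'] [Algebra.FiniteType k R]
  [Field E] [CharZero E] (p : ℕ) [Fact p.Prime] [CharP k p] (r : ℕ) (f : Fin r → R)
  (ψ : R →ₐ[k] R'), Function.Surjective ψ → RingHom.ker ψ.toRingHom = Ideal.span (Set.range f) →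
  ∀ l : ℕ, (∀ c : RP k (QP p (MvPolynomial (Fin r) R) (lin f)) (l + r) →₀ E,
    c ∈ rat k (QP p (MvPolynomial (Fin r) R) (lin f)) E (l + r)) →
  ∀ z : RP k R' l →₀ E, z ∈ rat k R' E l

def M_ASX : Prop := S_FP → S_PLIN → S_PCO → S_ATWO → S_AROT → S_AISO → S_AE1 → S_ASX

end ASC
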